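import Pool.Agent.H4.BC.Fwd
import Pool.Graph.R_pool_sql_team_seeded_63374d34.N254.SQ.Zsurj
import Pool.Graph.R_pool_sql_team_seeded_63374d34.N254.SQ.Zred

/-!
Complements of hypersurfaces as affine schemes.
-/

set_option autoImplicit false

namespace Pool.Agent.H4.BC

open MvPolynomial NumberField IsDedekindDomain
open Pool.Agent.N254.SQ
open scoped LinearAlgebra.Projectivization

theorem mon_exists (n d : ℕ) : ∃ (N : ℕ) (m : Fin (N + 1) → Fin (n + 1) → ℕ), Mon n N d m := by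
  obtain ⟨A, hA⟩ : ∃ A : Finset (Fin (n + 1) → ℕ), A = Finset.piAntidiag Finset.univ d := ⟨_, rfl⟩
  have memA : ∀ α : Fin (n + 1) → ℕ, α ∈ A ↔ ∑ j, α j = d := by
    intro α
    rw [hA, Finset.mem_piAntidiag]
    simp
  have h1 : 1 ≤ A.card := Finset.card_pos.2 ⟨Fin.cons d 0, (memA _).2 (by
    rw [Fin.sum_univ_succ]
    simp)⟩
  obtain ⟨N, hN⟩ : ∃ N, A.card = N + 1 := ⟨A.card - 1, by omega⟩
  have e : A ≃ Fin (N + 1) := A.equivFinOfCardEq hN
  refine ⟨N, fun a => (e.symm a : Fin (n + 1) → ℕ), ⟨?_, ?_, ?_⟩⟩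
  · intro a
    exact (memA _).1 (e.symm a).2
  · intro a b h
    exact e.symm.injective (Subtype.ext h)
  · intro α hα
    exact ⟨e ⟨α, (memA α).2 hα⟩, by simp⟩

theorem val_int {K L : Type} [Field K] [Field L] [NumberField L] [Algebra K L]
    (v : HeightOneSpectrum (𝓞 L)) (a : 𝓞 K) :
    v.valuation L (algebraMap K L (algebraMap (𝓞 K) K a)) ≤ 1 := by
  have h1 : IsIntegral ℤ (algebraMap K L (algebraMap (𝓞 K) K a)) :=
    (RingOfIntegers.isIntegral_coe a).map (algebraMap K L).toIntAlgHom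
  exact v.valuation_le_one (⟨_, h1⟩ : 𝓞 L)

theorem val_eval {K L : Type} [Field K] [Field L] [NumberField L] [Algebra K L] {N : ℕ}
    (v : HeightOneSpectrum (𝓞 L)) (p : MvPolynomial (Fin (N + 1)) (𝓞 K)) (x : Fin (N + 1) → L)
    (hx : ∀ j, v.valuation L (x j) ≤ 1) :
    v.valuation L (eval₂ ((algebraMap K L).comp (algebraMap (𝓞 K) K)) x p) ≤ 1 := by
  have h1 : eval₂ ((algebraMap K L).comp (algebraMap (𝓞 K) K)) x p ∈ (v.valuation L).integer :=
    MvPolynomial.eval₂_mem (fun i _ => val_int v _) hx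
  exact h1

/-- the complement of a hypersurface as an affine scheme -/
theorem back {K : Type} [Field K] [NumberField K] (N e : ℕ) (he : 1 ≤ e)
    (P : MvPolynomial (Fin (N + 1)) (𝓞 K)) (hP : P.IsHomogeneous e) (τ : Type)
    (G : τ → MvPolynomial (Fin (N + 1)) (𝓞 K)) (hG : ∀ l, ∃ g, (G l).IsHomogeneous g) :
    ∃ (M : ℕ) (ι : Type) (_ : Finite ι) (F' : ι → MvPolynomial (Fin M) (𝓞 K))
      (G' : τ → MvPolynomial (Fin M) (𝓞 K)),
      (∀ σ : K →+* ℂ, AffineCurves σ F' G' ↔ ComplementCurves σ P G) ∧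
        (AffinePoints F' G' ↔ ComplementPoints P G) := by
  classical
  obtain ⟨M, m, hm⟩ := mon_exists N e
  obtain ⟨κ, _, r₁, hr₁, v₁, w₁⟩ := t_ver K N M e m hm he Empty (fun k => k.elim)
    (fun k => k.elim) (fun k => k.elim) (fun k => k.elim)
  choose c₁ r hc₁ hr hcr using fun i => zb_denom (r₁ i) (hr₁ i)
  have hz : ∀ (Ω : Type) [Field Ω] (τ : K →+* Ω) (y : Fin (M + 1) → Ω),
      (∀ i, eval₂ (τ.comp (algebraMap (𝓞 K) K)) y (r i) = 0) ↔ ∀ i, eval₂ τ y (r₁ i) = 0 :=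
    fun Ω _ τ y => forall_congr' fun i => zb_zero τ (hc₁ i) (hcr i) y
  obtain ⟨ℓ, hℓ, hℓP⟩ := t_zsurj (𝓞 K) N M e m hm 1 P (by rwa [mul_one])
  choose g hg using hG
  choose G' hG' hG'p using fun l => t_zsurj (𝓞 K) N M e m hm (g l) (G l ^ e) (by
    have := (hg l).pow e
    rwa [mul_comm (g l) e] at this)
  -- values
  have hPv : ∀ (Ω : Type) [Field Ω] (τ : K →+* Ω) (x : Fin (N + 1) → Ω),
      eval₂ (τ.comp (algebraMap (𝓞 K) K)) (ver m x) ℓ =
        eval₂ (τ.comp (algebraMap (𝓞 K) K)) x P := by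
    intro Ω _ τ x
    rw [← zb_pull, hℓP]
  have hGv : ∀ (Ω : Type) [Field Ω] (τ : K →+* Ω) (x : Fin (N + 1) → Ω) (l),
      eval₂ (τ.comp (algebraMap (𝓞 K) K)) (ver m x) (G' l) =
        eval₂ (τ.comp (algebraMap (𝓞 K) K)) x (G l) ^ e := by
    intro Ω _ τ x l
    rw [← zb_pull, hG'p, eval₂_pow]
  have hrv : ∀ (Ω : Type) [Field Ω] (τ : K →+* Ω) (x : Fin (N + 1) → Ω) (i),
      eval₂ (τ.comp (algebraMap (𝓞 K) K)) (ver m x) (r i) = 0 := by
    intro Ω _ τ x
    rw [hz]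
    let _ := τ.toAlgebra
    exact v₁ Ω x (fun k => k.elim)
  obtain ⟨F', hF'⟩ : ∃ F' : κ ⊕ Unit → MvPolynomial (Fin (M + 1)) (𝓞 K),
    F' = Sum.elim r (fun _ => ℓ - 1) := ⟨_, rfl⟩
  have hFiff : ∀ (Ω : Type) [Field Ω] (τ : K →+* Ω) (y : Fin (M + 1) → Ω),
      (∀ i, eval₂ (τ.comp (algebraMap (𝓞 K) K)) y (F' i) = 0) ↔
        (∀ i, eval₂ (τ.comp (algebraMap (𝓞 K) K)) y (r i) = 0) ∧
          eval₂ (τ.comp (algebraMap (𝓞 K) K)) y ℓ = 1 := by
    intro Ω _ τ y
    rw [Sum.forall, hF']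
    simp only [Sum.elim_inl, Sum.elim_inr]
    apply and_congr_right
    intro _
    rw [eval₂_sub, eval₂_one, sub_eq_zero]
    exact ⟨fun h => h (), fun h _ => h⟩
  -- from the affine scheme to the projective space
  have hlift : ∀ (Ω : Type) [Field Ω] (τ : K →+* Ω) (y : Fin (M + 1) → Ω),
      (∀ i, eval₂ (τ.comp (algebraMap (𝓞 K) K)) y (F' i) = 0) →
      ∃ (x : Fin (N + 1) → Ω) (c : Ω), x ≠ 0 ∧ c ≠ 0 ∧ y = c • ver m x ∧
        c * eval₂ (τ.comp (algebraMap (𝓞 K) K)) x P = 1 := by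
    intro Ω _ τ y hy
    obtain ⟨h1, h2⟩ := (hFiff Ω τ y).1 hy
    have hy0 : y ≠ 0 := by
      intro h0
      have h3 := scale' τ hℓ 0 y
      rw [h0, zero_smul, pow_one, zero_mul] at h3
      rw [h0, h3] at h2
      exact zero_ne_one h2
    rw [hz] at h1
    let _ := τ.toAlgebra
    obtain ⟨-, x, a, b, hxa, hyb, hyc, -⟩ := w₁ Ω y hy0 h1
    have hx0 : x ≠ 0 := by
      intro h
      rw [h] at hxa
      exact zero_ne_one hxa
    have hy' : y = y b • ver m x := funext hyc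
    refine ⟨x, y b, hx0, hyb, hy', ?_⟩
    rw [hy', scale' τ hℓ, pow_one, hPv] at h2
    exact h2
  -- from the projective space to the affine scheme
  have hdown : ∀ (Ω : Type) [Field Ω] (τ : K →+* Ω) (x : Fin (N + 1) → Ω),
      eval₂ (τ.comp (algebraMap (𝓞 K) K)) x P ≠ 0 → ∀ i,
      eval₂ (τ.comp (algebraMap (𝓞 K) K))
        ((eval₂ (τ.comp (algebraMap (𝓞 K) K)) x P)⁻¹ • ver m x) (F' i) = 0 := by
    intro Ω _ τ x hx
    rw [hFiff]
    refine ⟨fun i => ?_, ?_⟩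
    · rw [scale' τ (hr i), hrv, mul_zero]
    · rw [scale' τ hℓ, pow_one, hPv, inv_mul_cancel₀ hx]
  have hGz : ∀ (Ω : Type) [Field Ω] (τ : K →+* Ω) (x : Fin (N + 1) → Ω) (c : Ω), c ≠ 0 →
      ∀ l, (eval₂ (τ.comp (algebraMap (𝓞 K) K)) (c • ver m x) (G' l) = 0 ↔
        eval₂ (τ.comp (algebraMap (𝓞 K) K)) x (G l) = 0) := by
    intro Ω _ τ x c hc l
    rw [scale' τ (hG' l), hGv, mul_eq_zero, pow_eq_zero_iff (by omega : e ≠ 0)]
    constructor
    · rintro (h | h)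
      · exact absurd h (pow_ne_zero _ hc)
      · exact h
    · exact Or.inr
  refine ⟨M + 1, κ ⊕ Unit, inferInstance, F', G', fun σ => ⟨?_, ?_⟩, ⟨?_, ?_⟩⟩
  · -- curves
    intro h f hf hf0 hPf hnc
    have h1 := h (fun z => (eval₂ (σ.comp (algebraMap (𝓞 K) K)) (f z) P)⁻¹ • ver m (f z)) (by
        have h2 : Differentiable ℂ fun z => eval₂ (σ.comp (algebraMap (𝓞 K) K)) (f z) P := by
          have h3 := form_diff (f := fun j z => f z j) (fun j => differentiable_pi.1 hf j)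
            (map (σ.comp (algebraMap (𝓞 K) K)) P)
          simp only [eval_map] at h3
          exact h3
        exact (h2.fun_inv hPf).smul (ver_diff hf)) (fun z => hdown ℂ σ (f z) (hPf z)) (by
        obtain ⟨z1, z2, h12⟩ := hnc
        refine ⟨z1, z2, fun h2 => ?_⟩
        have h3 : ver m (f z2) = (eval₂ (σ.comp (algebraMap (𝓞 K) K)) (f z2) P *
            (eval₂ (σ.comp (algebraMap (𝓞 K) K)) (f z1) P)⁻¹) • ver m (f z1) := by
          have h2' : (eval₂ (σ.comp (algebraMap (𝓞 K) K)) (f z1) P)⁻¹ • ver m (f z1) =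
            (eval₂ (σ.comp (algebraMap (𝓞 K) K)) (f z2) P)⁻¹ • ver m (f z2) := h2
          rw [mul_smul, h2', smul_smul, mul_inv_cancel₀ (hPf z2), one_smul]
        obtain ⟨c', hc'⟩ := ver_prop hm he (hf0 z2) h3
        exact h12 c' hc')
    intro z l
    exact (hGz ℂ σ (f z) _ (inv_ne_zero (hPf z)) l).1 (h1 z l)
  · intro h Z hZ hZF hnc
    obtain ⟨f, hf, hZf⟩ := t_lift N M e m hm he ℂ Z hZ (fun z => by
      obtain ⟨x, c, hx0, hc0, hy, -⟩ := hlift ℂ σ (Z z) (hZF z)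
      obtain ⟨s, hs⟩ := IsAlgClosed.exists_pow_nat_eq c (n := e) (by omega)
      have hs0 : s ≠ 0 := by
        intro h
        rw [h, zero_pow (by omega)] at hs
        exact hc0 hs.symm
      exact ⟨s • x, smul_ne_zero hs0 hx0, by rw [ver_smul hm, hs, hy]⟩)
    have hPf : ∀ z, eval₂ (σ.comp (algebraMap (𝓞 K) K)) (f z) P = 1 := by
      intro z
      rw [← hPv, ← hZf z]
      exact ((hFiff ℂ σ _).1 (hZF z)).2
    have hf0 : ∀ z, f z ≠ 0 := by
      intro z h0
      have h3 := hPf z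
      have h4 := scale' σ hP 0 (f z)
      rw [zero_smul, zero_pow (by omega), zero_mul] at h4
      rw [h0, h4] at h3
      exact zero_ne_one h3
    have h1 := h f hf hf0 (fun z => by rw [hPf z]; exact one_ne_zero) (by
      obtain ⟨z1, z2, h12⟩ := hnc
      refine ⟨z1, z2, fun c hc => h12 ?_⟩
      have h3 := hPf z2
      rw [hc, scale' σ hP, hPf z1, mul_one] at h3
      rw [hZf z1, hZf z2, hc, ver_smul hm, h3, one_smul])
    intro z l
    rw [hZf z]
    have h2 := (hGz ℂ σ (f z) 1 one_ne_zero l).2 (h1 z l)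
    rwa [one_smul] at h2
  · -- points
    intro h L _ _ _ S hS
    refine Set.Finite.of_finite_image (f := fun p : ℙ L (Fin (N + 1) → L) =>
      (eval₂ ((algebraMap K L).comp (algebraMap (𝓞 K) K)) p.rep P)⁻¹ • ver m p.rep)
      ((h L S hS).subset ?_) ?_
    · rintro _ ⟨p, ⟨⟨hp1, hp2⟩, hp3⟩, rfl⟩
      refine ⟨⟨fun a v hv => ?_, hdown L (algebraMap K L) p.rep hp1⟩, fun h4 => hp3 fun l => ?_⟩
      · obtain ⟨c, hc1, ⟨j0, hj0⟩, hc3⟩ := hp2 v hv
        have hc0 : c ≠ 0 := by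
          intro h
          rw [h, zero_mul, map_zero] at hj0
          exact zero_ne_one hj0
        have hcr : (fun j => c * p.rep j) = c • p.rep := rfl
        have h5 : ((eval₂ ((algebraMap K L).comp (algebraMap (𝓞 K) K)) p.rep P)⁻¹ •
            ver m p.rep) a =
            (eval₂ ((algebraMap K L).comp (algebraMap (𝓞 K) K)) (c • p.rep) P)⁻¹ *
              ver m (fun j => c * p.rep j) a := by
          rw [hcr, scale' _ hP, ver_smul hm, Pi.smul_apply, Pi.smul_apply, smul_eq_mul,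
            smul_eq_mul, mul_inv]
          have h6 : c ^ e ≠ 0 := pow_ne_zero _ hc0
          field_simp
        refine (congrArg (v.valuation L) h5).le.trans ?_
        rw [map_mul, map_inv₀]
        rw [hcr] at hc3
        rw [hc3, inv_one, one_mul]
        have h7 := zr_le hm (v.valuation L) (fun j => c * p.rep j) 1 hc1 a
        rwa [one_pow] at h7
      · exact (hGz L (algebraMap K L) p.rep _ (inv_ne_zero hp1) l).1 (h4.2 l)
    · rintro p ⟨⟨hp1, -⟩, -⟩ p' ⟨⟨hp1', -⟩, -⟩ hpp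
      have hpp' : (eval₂ ((algebraMap K L).comp (algebraMap (𝓞 K) K)) p.rep P)⁻¹ • ver m p.rep =
        (eval₂ ((algebraMap K L).comp (algebraMap (𝓞 K) K)) p'.rep P)⁻¹ • ver m p'.rep := hpp
      have h3 : ver m p.rep = (eval₂ ((algebraMap K L).comp (algebraMap (𝓞 K) K)) p.rep P *
          (eval₂ ((algebraMap K L).comp (algebraMap (𝓞 K) K)) p'.rep P)⁻¹) • ver m p'.rep := by
        rw [mul_smul, ← hpp', smul_smul, mul_inv_cancel₀ hp1, one_smul]
      obtain ⟨c', hc'⟩ := ver_prop hm he p.rep_nonzero h3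
      rw [← p.mk_rep, ← p'.mk_rep, Projectivization.mk_eq_mk_iff']
      exact ⟨c', hc'.symm⟩
  · intro h L _ _ _ S hS
    refine ((h L S hS).image (fun p : ℙ L (Fin (N + 1) → L) =>
      (eval₂ ((algebraMap K L).comp (algebraMap (𝓞 K) K)) p.rep P)⁻¹ • ver m p.rep)).subset ?_
    rintro Z ⟨⟨hZ1, hZ2⟩, hZ3⟩
    obtain ⟨x, c, hx0, hc0, hy, hcP⟩ := hlift L (algebraMap K L) Z hZ2
    obtain ⟨u, hu⟩ := Projectivization.exists_smul_eq_mk_rep L x hx0
    obtain ⟨p, hp⟩ : ∃ p : ℙ L (Fin (N + 1) → L), p = Projectivization.mk L x hx0 := ⟨_, rfl⟩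
    have hrep : p.rep = (u : L) • x := by
      rw [hp]
      exact hu.symm
    have hu0 : (u : L) ^ e ≠ 0 := pow_ne_zero _ u.ne_zero
    have hPx : eval₂ ((algebraMap K L).comp (algebraMap (𝓞 K) K)) x P = c⁻¹ :=
      eq_inv_of_mul_eq_one_right hcP
    have hPr : eval₂ ((algebraMap K L).comp (algebraMap (𝓞 K) K)) p.rep P =
        (u : L) ^ e * c⁻¹ := by
      rw [hrep, scale' _ hP, hPx]
    have hPr0 : eval₂ ((algebraMap K L).comp (algebraMap (𝓞 K) K)) p.rep P ≠ 0 := by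
      rw [hPr]
      exact mul_ne_zero hu0 (inv_ne_zero hc0)
    have hψ : (eval₂ ((algebraMap K L).comp (algebraMap (𝓞 K) K)) p.rep P)⁻¹ • ver m p.rep =
        Z := by
      rw [hPr, hrep, ver_smul hm, smul_smul, hy, mul_inv, inv_inv]
      congr 1
      field_simp
    refine ⟨p, ⟨⟨hPr0, fun v hv => ?_⟩, fun h4 => hZ3 ⟨hZ1, fun l => ?_⟩⟩, hψ⟩
    · -- the reduction
      obtain ⟨j0, -, hj0⟩ := Finset.exists_max_image (Finset.univ : Finset (Fin (N + 1)))
        (fun j => v.valuation L (p.rep j)) ⟨0, Finset.mem_univ _⟩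
      have hmax : ∀ j, v.valuation L (p.rep j) ≤ v.valuation L (p.rep j0) := fun j =>
        hj0 j (Finset.mem_univ j)
      have hr0 : p.rep j0 ≠ 0 := by
        intro h0
        apply p.rep_nonzero
        funext j
        have h2 := hmax j
        rw [h0, map_zero] at h2
        exact (Valuation.zero_iff _).1 (le_antisymm h2 zero_le)
      have hv0 : v.valuation L (p.rep j0) ≠ 0 := (Valuation.ne_zero_iff _).2 hr0
      have hle : ∀ j, v.valuation L ((p.rep j0)⁻¹ * p.rep j) ≤ 1 := by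
        intro j
        rw [map_mul, map_inv₀]
        calc (v.valuation L (p.rep j0))⁻¹ * v.valuation L (p.rep j)
            ≤ (v.valuation L (p.rep j0))⁻¹ * v.valuation L (p.rep j0) := mul_le_mul_right (hmax j) _
          _ = 1 := inv_mul_cancel₀ hv0
      refine ⟨(p.rep j0)⁻¹, hle, ⟨j0, by rw [inv_mul_cancel₀ hr0, map_one]⟩, ?_⟩
      apply le_antisymm
      · exact val_eval v P _ hle
      · obtain ⟨a0, ha0⟩ := zr_single hm j0
        have h5 := hZ1 a0 v hv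
        have hcr : (fun j => (p.rep j0)⁻¹ * p.rep j) = (p.rep j0)⁻¹ • p.rep := rfl
        have h6 : Z a0 = (eval₂ ((algebraMap K L).comp (algebraMap (𝓞 K) K))
            ((p.rep j0)⁻¹ • p.rep) P)⁻¹ := by
          rw [← hψ, scale' _ hP, Pi.smul_apply, smul_eq_mul, ha0, mul_inv, inv_pow, inv_inv]
          ring
        rw [h6, map_inv₀] at h5
        rw [hcr]
        have h7 : v.valuation L (eval₂ ((algebraMap K L).comp (algebraMap (𝓞 K) K))
            ((p.rep j0)⁻¹ • p.rep) P) ≠ 0 := by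
          rw [Valuation.ne_zero_iff, scale' _ hP]
          exact mul_ne_zero (pow_ne_zero _ (inv_ne_zero hr0)) hPr0
        exact (inv_le_one₀ (zero_lt_iff.2 h7)).1 h5
    · have h5 := h4 l
      have h6 := (hGz L (algebraMap K L) p.rep _ (inv_ne_zero hPr0) l).2 h5
      rwa [hψ] at h6

end Pool.Agent.H4.BC
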