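import Pool.Graph.R_pool_sql_team_seeded_63374d34.N254.SQ.Size

/-!
The size of the minimal vanishing sums of terms `G_t(f) ℓ_t(f) ^ D` with arbitrary linear forms `ℓ_t`
among which there are `n + 1` independent ones. The proof is the one of the library's `t_size` (where
the linear forms are `x_0 + t x_1 + … + t ^ n x_n`).
-/

set_option autoImplicit false

namespace Pool.Agent.H4.BC

open MvPolynomial Filter Topology Asymptotics ValueDistribution
open Pool.Agent.N131.SR (Big NZ)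
open Pool.Agent.N254.SQ

/-- the linear form with the coefficients `a` -/
noncomputable def lf {n : ℕ} (a : Fin (n + 1) → ℂ) : MvPolynomial (Fin (n + 1)) ℂ :=
  ∑ j, C (a j) * X j

theorem lf_eval {n : ℕ} (a x : Fin (n + 1) → ℂ) : eval x (lf a) = ∑ j, a j * x j := by
  unfold lf
  rw [map_sum]
  refine Finset.sum_congr rfl fun j _ => ?_
  rw [map_mul, eval_C, eval_X]

theorem lf_hom {n : ℕ} (a : Fin (n + 1) → ℂ) : (lf a).IsHomogeneous 1 := by
  unfold lf
  refine IsHomogeneous.sum _ _ _ fun j _ => ?_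
  have := (isHomogeneous_C (Fin (n + 1)) (a j)).mul (isHomogeneous_X ℂ j)
  simpa using this

/-- SIZE for general linear forms -/
def SizeG_stm : Prop :=
  ∀ n e M : ℕ, ∃ D₁ : ℕ, ∀ D, D₁ ≤ D → ∀ (κ : Type) [Fintype κ], Fintype.card κ ≤ M →
    2 ≤ Fintype.card κ →
    ∀ (G : κ → MvPolynomial (Fin (n + 1)) ℂ) (A : κ → Fin (n + 1) → ℂ) (ψ : Fin (n + 1) → κ),
      LinearIndependent ℂ (fun i => A (ψ i)) →
      (∀ t, (G t).IsHomogeneous e) → ∀ f : Fin (n + 1) → ℂ → ℂ, (∀ j, Differentiable ℂ (f j)) →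
      (∀ z, ∃ j, f j z ≠ 0) →
      (∀ z, ∑ t, eval (fun j => f j z) (G t) * eval (fun j => f j z) (lf (A t)) ^ D = 0) →
      (∀ B : Finset κ, B.Nonempty → B ≠ Finset.univ → ∃ z, ∑ t ∈ B,
        eval (fun j => f j z) (G t) * eval (fun j => f j z) (lf (A t)) ^ D ≠ 0) →
      ∀ i j z w, f i z * f j w = f j z * f i w

theorem t_sizeG (h1 : Circ_stm) (h2 : LeDet_stm) (h3 : Wr_stm) (h4 : Form_stm) (h5 : Logd_stm)
    (h6 : Top_stm) (h7 : Exp_stm) : SizeG_stm := by
  classical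
  intro n e M
  choose Cd hCd using h2
  obtain ⟨C₀, hC₀⟩ : ∃ C₀ : ℝ,
    C₀ = 2 * (((e : ℝ) + 2) * ∑ m ∈ Finset.range (M + 1), Cd m) := ⟨_, rfl⟩
  have hC₀0 : 0 ≤ C₀ := by
    rw [hC₀]
    have : 0 ≤ ∑ m ∈ Finset.range (M + 1), Cd m := Finset.sum_nonneg fun m _ => (hCd m).1
    positivity
  obtain ⟨D₁, hD₁⟩ := exists_nat_gt (((n : ℝ) + 1) * (M * C₀ + e))
  refine ⟨D₁ + 1, ?_⟩
  intro D hD κ _ hM h2c G A ψ hA hG f hf hf0 hsum hsub
  by_contra hcon
  push Not at hcon
  obtain ⟨L, H, hτ0⟩ := h7 n f hf hf0 (by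
    obtain ⟨i, j, z, w, h⟩ := hcon
    exact ⟨i, j, z, w, h⟩)
  set g : Fin (n + 1) → ℂ → ℂ := fun j z => f j (Complex.exp z) with hg
  set τ : ℝ → ℝ := Tf g with hτ
  have hgd : ∀ j, Differentiable ℂ (g j) := fun j => (hf j).comp Complex.differentiable_exp
  have hg0 : ∀ z, ∃ j, g j z ≠ 0 := fun z => hf0 _
  have hD1 : 1 ≤ D := by omega
  -- the terms
  set U : κ → ℂ → ℂ := fun t z => eval (fun j => f j z) (G t) *
    eval (fun j => f j z) (lf (A t)) ^ D with hU
  have hUd : ∀ t, Differentiable ℂ (U t) := fun t =>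
    (form_diff hf (G t)).mul ((form_diff hf (lf (A t))).pow D)
  set u : κ → ℂ → ℂ := fun t z => eval (fun j => g j z) (G t) *
    eval (fun j => g j z) (lf (A t)) ^ D with hu
  have hud : ∀ t, Differentiable ℂ (u t) := fun t =>
    (form_diff hgd (G t)).mul ((form_diff hgd (lf (A t))).pow D)
  have huU : ∀ t z, u t z = U t (Complex.exp z) := fun t z => rfl
  have husum : ∀ z, ∑ t, u t z = 0 := fun z => hsum (Complex.exp z)
  have husub : ∀ B : Finset κ, B.Nonempty → B ≠ Finset.univ → ∃ z, ∑ t ∈ B, u t z ≠ 0 := by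
    intro B hB hB'
    obtain ⟨z, hz⟩ := hsub B hB hB'
    have hc : Continuous fun z => ∑ t ∈ B, U t z :=
      continuous_finsetSum _ fun t _ => (hUd t).continuous
    exact size_exp hc hz
  have hu0 : ∀ t, ∃ z, u t z ≠ 0 := by
    intro t
    obtain ⟨z, hz⟩ := husub {t} (Finset.singleton_nonempty t) (by
      intro h
      have := congrArg Finset.card h
      rw [Finset.card_singleton, Finset.card_univ] at this
      omega)
    rw [Finset.sum_singleton] at hz
    exact ⟨z, hz⟩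
  have hG0 : ∀ t, ∃ z, eval (fun j => g j z) (G t) ≠ 0 := by
    intro t
    obtain ⟨z, hz⟩ := hu0 t
    exact ⟨z, left_ne_zero_of_mul hz⟩
  have hl0 : ∀ t, ∃ z, eval (fun j => g j z) (lf (A t)) ≠ 0 := by
    intro t
    obtain ⟨z, hz⟩ := hu0 t
    refine ⟨z, fun h => right_ne_zero_of_mul hz ?_⟩
    rw [h]
    exact zero_pow (by omega)
  obtain ⟨l, hl⟩ : ∃ l, ∃ z, g l z ≠ 0 := by
    obtain ⟨l, hl⟩ := hg0 0
    exact ⟨l, 0, hl⟩
  have hlog : ∀ t, Le L τ (e + 2) (logDeriv fun w => u t w / g l w ^ (D + e)) := fun t =>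
    h5 n g hgd hg0 L H e D (G t) (lf (A t)) (hG t) (lf_hom (A t)) l hl (hG0 t) (hl0 t)
  -- the graph
  let Gr : SimpleGraph κ :=
    { Adj := fun i j => i ≠ j ∧ (Le L τ C₀ fun z => u i z / u j z) ∧
        Le L τ C₀ fun z => u j z / u i z
      symm := ⟨fun i j h => ⟨h.1.symm, h.2.2, h.2.1⟩⟩
      loopless := ⟨fun i h => h.1 rfl⟩ }
  have hreach : ∀ i j, Gr.Reachable i j := by
    refine h1 (ℂ → ℂ) κ u (by
      funext z
      rw [Finset.sum_apply]
      exact husum z) (by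
      intro B hB hB' h
      obtain ⟨z, hz⟩ := husub B hB hB'
      apply hz
      have := congrFun h z
      rwa [Finset.sum_apply] at this) Gr.Reachable Gr.reachable_is_equivalence ?_
    intro a ha hasum hmin i j hai haj
    by_cases hij : i = j
    · rw [hij]
    · have hfun : ∀ b : κ → ℂ, (∀ z, ∑ i, b i * u i z = 0) → ∑ i, b i • u i = 0 := by
        intro b hb
        funext z
        rw [Finset.sum_apply]
        exact hb z
      have hfun' : ∀ z, ∑ i, a i * u i z = 0 := by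
        intro z
        have := congrFun hasum z
        rw [Finset.sum_apply] at this
        exact this
      have hs : Differentiable ℂ fun w => g l w ^ (D + e) := (hgd l).pow _
      have hs0 : ∃ z, g l z ^ (D + e) ≠ 0 := by
        obtain ⟨z, hz⟩ := hl
        exact ⟨z, pow_ne_zero _ hz⟩
      have hmin' : ∀ b : κ → ℂ, (∀ i, a i = 0 → b i = 0) → (∀ z, ∑ i, b i * u i z = 0) →
          ∃ c : ℂ, b = c • a := fun b hb hb' => hmin b hb (hfun b hb')
      refine SimpleGraph.Adj.reachable ⟨hij, ?_, ?_⟩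
      · rw [hC₀]
        exact size_circuit h3 H hτ0 Cd hCd hM u hud _ hs hs0 hlog a hfun'
          hmin' hij hai haj
      · rw [hC₀]
        exact size_circuit h3 H hτ0 Cd hCd hM u hud _ hs hs0 hlog a hfun'
          hmin' (Ne.symm hij) haj hai
  have hratio : ∀ i j, Le L τ (M * C₀) fun z => u i z / u j z := by
    intro i j
    obtain ⟨w, hw⟩ := (hreach i j).exists_isPath
    have h8 := size_walk H u hud hu0 C₀ Gr (fun i j h => h.2.1) w
    refine size_mono hτ0 ?_ h8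
    refine mul_le_mul_of_nonneg_right ?_ hC₀0
    have := hw.length_lt
    exact_mod_cast (by omega : w.length ≤ M)
  -- the linear forms
  set ℓ : Fin (n + 1) → ℂ → ℂ := fun i z => eval (fun j => g j z) (lf (A (ψ i))) with hℓ
  have hℓd : ∀ i, Differentiable ℂ (ℓ i) := fun i => form_diff hgd _
  have hℓ0 : ∀ i, ∃ z, ℓ i z ≠ 0 := fun i => hl0 _
  have hℓeq : ∀ i z, ∑ j : Fin (n + 1), A (ψ i) j * g j z = ℓ i z := fun i z =>
    (lf_eval _ _).symm
  obtain ⟨Ct, hCt⟩ := h6 n g hgd hg0 (fun i => A (ψ i)) hA 0 (by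
    obtain ⟨z, hz⟩ := hℓ0 0
    exact ⟨z, by rw [hℓeq]; exact hz⟩)
  simp only [hℓeq] at hCt
  have hpowl : ∀ i, Le L τ (M * C₀ + e) fun z => (ℓ i z / ℓ 0 z) ^ D := by
    intro i
    obtain ⟨Cf, hCf⟩ := h4 n g hgd hg0 e (G (ψ 0)) (G (ψ i)) (hG _) (hG _) (hG0 _)
    have h8 : Le L τ e fun z => eval (fun j => g j z) (G (ψ 0)) / eval (fun j => g j z) (G (ψ i)) := by
      refine ⟨(diff_mero (form_diff hgd _)).div (diff_mero (form_diff hgd _)), fun _ => Cf,
        H.const Cf, ?_⟩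
      filter_upwards [H.ge] with r hr
      exact (hCf r hr).1
    have hmp : Meromorphic fun z => (ℓ i z / ℓ 0 z) ^ D := fun z =>
      (((diff_mero (hℓd i)).div (diff_mero (hℓd 0))) z).pow D
    refine size_congr H (size_mul H (hratio (ψ i) (ψ 0)) h8) hmp ?_
    filter_upwards [diff_ne (form_diff hgd (G (ψ 0))) (hG0 _),
      diff_ne (form_diff hgd (G (ψ i))) (hG0 _), diff_ne (hℓd 0) (hℓ0 0)] with z hz1 hz2 hz3
    simp only [hu, hℓ] at hz3 ⊢
    have hz4 := pow_ne_zero D hz3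
    rw [div_pow]
    field_simp
  -- the final inequality
  have hfin : ∃ s : ℝ → ℝ, s =o[L] τ ∧
      ∀ᶠ r in L, (D : ℝ) * τ r ≤ ((n : ℝ) + 1) * (M * C₀ + e) * τ r + s r := by
    choose ml s hs hb using hpowl
    refine ⟨fun r => ∑ i, s i r + D * Ct, (IsLittleO.fun_sum fun i _ => hs i).add (H.const _), ?_⟩
    filter_upwards [eventually_all.2 hb, H.ge] with r hr hr1
    have h9 := mul_le_mul_of_nonneg_left (hCt r hr1) (Nat.cast_nonneg (α := ℝ) D)
    refine h9.trans ?_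
    rw [mul_add, Finset.mul_sum]
    have h10 : ∀ i, (D : ℝ) * characteristic (fun z => ℓ i z / ℓ 0 z) ⊤ r ≤
        (M * C₀ + e) * τ r + s i r := by
      intro i
      have h11 : characteristic (fun z => (ℓ i z / ℓ 0 z) ^ D) ⊤ r =
          (D : ℝ) * characteristic (fun z => ℓ i z / ℓ 0 z) ⊤ r := by
        have h12 := characteristic_pow_top (n := D) ((diff_mero (hℓd i)).div (diff_mero (hℓd 0)))
        have h13 : (fun z => (ℓ i z / ℓ 0 z) ^ D) = (ℓ i / ℓ 0) ^ D := rfl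
        have h15 : (fun z => ℓ i z / ℓ 0 z) = ℓ i / ℓ 0 := rfl
        rw [h13, h12, h15, Pi.smul_apply, nsmul_eq_mul]
      rw [← h11]
      exact hr i
    have h14 := Finset.sum_le_sum fun i (_ : i ∈ (Finset.univ : Finset (Fin (n + 1)))) => h10 i
    rw [Finset.sum_add_distrib, Finset.sum_const, Finset.card_univ, Fintype.card_fin,
      nsmul_eq_mul] at h14
    push_cast at h14
    linarith
  obtain ⟨s, hs, hb⟩ := hfin
  have hne : L.NeBot := H.big.ne
  have hgap : 0 < (D : ℝ) - ((n : ℝ) + 1) * (M * C₀ + e) := by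
    have : (D₁ : ℝ) ≤ D := by exact_mod_cast (by omega : D₁ ≤ D)
    linarith
  set δ : ℝ := (D : ℝ) - ((n : ℝ) + 1) * (M * C₀ + e) with hδ
  have h8 := isLittleO_iff.1 hs (show 0 < δ / 2 by positivity)
  have h9 := isLittleO_iff.1 H.one (show (0 : ℝ) < 1 by norm_num)
  obtain ⟨r, hr1, hr2, hr3, hr4⟩ := (h8.and (h9.and (hb.and hτ0))).exists
  rw [Real.norm_eq_abs, Real.norm_eq_abs, abs_of_nonneg hr4] at hr1
  rw [Real.norm_eq_abs, Real.norm_eq_abs, abs_of_nonneg hr4, abs_one, one_mul] at hr2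
  have h10 := le_abs_self (s r)
  have h11 : δ * τ r ≤ δ / 2 * τ r := by
    have : δ * τ r = D * τ r - ((n : ℝ) + 1) * (M * C₀ + e) * τ r := by rw [hδ]; ring
    linarith
  nlinarith

end Pool.Agent.H4.BC
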