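import Pool.Graph.R_pool_sql_team_seeded_63374d34.N254.SQ.Main
import Pool.Agent.H4.BC.SizeG

/-!
Entire curves in the complement of a hypersurface `∑ t, G_t ℓ_t ^ D = 0`.
-/

set_option autoImplicit false

namespace Pool.Agent.H4.BC

open MvPolynomial Filter Topology
open Pool.Agent.N254.SQ

/-- the vectors of coefficients of the linear forms, and the last coordinate -/
def vecs {n L : ℕ} : Option (Fin L) → Fin (n + 1 + 1) → ℂ
  | none => Fin.snoc (fun _ => 0) 1
  | some t => Fin.snoc (fun j : Fin (n + 1) => ((t : ℕ) : ℂ) ^ (j : ℕ)) 0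

theorem vecs_none {n L : ℕ} (x : Fin (n + 1 + 1) → ℂ) :
    ∑ j, (vecs (none : Option (Fin L))) j * x j = x (Fin.last (n + 1)) := by
  rw [Fin.sum_univ_castSucc]
  simp [vecs]

theorem vecs_some {n L : ℕ} (t : Fin L) (x : Fin (n + 1 + 1) → ℂ) :
    ∑ j, (vecs (some t)) j * x j =
      ∑ j : Fin (n + 1), ((t : ℕ) : ℂ) ^ (j : ℕ) * x j.castSucc := by
  rw [Fin.sum_univ_castSucc]
  simp [vecs]

theorem vecs_indep {n L : ℕ} (φ : Fin (n + 1) → Fin L) (hφ : Function.Injective φ) :
    LinearIndependent ℂ (fun i : Fin (n + 1 + 1) =>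
      vecs (n := n) (Fin.snoc (α := fun _ => Option (Fin L)) (fun i => some (φ i)) none i)) := by
  rw [Fintype.linearIndependent_iff]
  intro c hc
  rw [Fin.sum_univ_castSucc] at hc
  simp only [Fin.snoc_castSucc, Fin.snoc_last] at hc
  have h1 : c (Fin.last (n + 1)) = 0 := by
    have := congrFun hc (Fin.last (n + 1))
    rw [Pi.add_apply, Finset.sum_apply] at this
    simpa [vecs] using this
  have hA : LinearIndependent ℂ (fun i j : Fin (n + 1) => ((φ i : ℕ) : ℂ) ^ (j : ℕ)) := by
    have h8 : (Matrix.vandermonde fun i : Fin (n + 1) => ((φ i : ℕ) : ℂ)).det ≠ 0 := by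
      rw [Matrix.det_vandermonde_ne_zero_iff]
      intro i j hij
      exact hφ (Fin.ext (Nat.cast_injective hij))
    exact Matrix.linearIndependent_rows_of_det_ne_zero h8
  have h2 := Fintype.linearIndependent_iff.1 hA (fun i => c i.castSucc) (by
    funext j
    have := congrFun hc j.castSucc
    rw [Pi.add_apply, Finset.sum_apply, h1] at this
    rw [Finset.sum_apply]
    simpa [vecs] using this)
  intro i
  refine Fin.lastCases h1 (fun i => h2 i) i

theorem term_lf {n : ℕ} (f : Fin (n + 1) → ℂ → ℂ) (t : ℕ) (z : ℂ) :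
    eval (fun j => f j z) (lin ℂ n t) = ∑ j : Fin (n + 1), (t : ℂ) ^ (j : ℕ) * f j z :=
  size_lin t _

/-- CURVES: along a nonconstant curve with `∑ t, G_t ℓ_t ^ D = 1` there are many vanishing
subsums -/
theorem curvesG (hP : Part_stm) (hS : Size_stm) (hS2 : SizeG_stm) (n e L : ℕ) :
    ∃ D₁ : ℕ, ∀ D, D₁ ≤ D →
    ∀ H : Fin L → MvPolynomial (Fin (n + 1)) ℂ, (∀ t, (H t).IsHomogeneous e) →
    ∀ f : Fin (n + 1) → ℂ → ℂ, (∀ j, Differentiable ℂ (f j)) → (∀ z, ∃ j, f j z ≠ 0) →
    (∀ z, ∑ t : Fin L, term f (H t) t D z = 1) → (∃ i j z w, f i z * f j w ≠ f j z * f i w) →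
    ∃ 𝓑 : Finset (Finset (Fin L)), (∀ B ∈ 𝓑, B.Nonempty) ∧
      (∀ B ∈ 𝓑, ∀ B' ∈ 𝓑, B ≠ B' → Disjoint B B') ∧
      (∀ B ∈ 𝓑, ∀ z, ∑ t ∈ B, term f (H t) t D z = 0) ∧ L ≤ n * (𝓑.card + 1) := by
  classical
  obtain ⟨D₁, hD₁⟩ := hS n e L
  obtain ⟨D₂, hD₂⟩ := hS2 (n + 1) e (L + 1)
  refine ⟨max D₁ D₂, fun D hD H hH f hf h0 hsum hnc => ?_⟩
  have hDD₁ : D₁ ≤ D := le_trans (le_max_left _ _) hD
  have hDD₂ : D₂ ≤ D := le_trans (le_max_right _ _) hD
  obtain ⟨u, hu⟩ : ∃ u : Option (Fin L) → ℂ → ℂ,
    u = fun o => Option.elim o (fun _ => -1) (fun t => term f (H t) t D) := ⟨_, rfl⟩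
  have hun : ∀ z, u none z = -1 := fun z => by rw [hu]; rfl
  have hus : ∀ t z, u (some t) z = term f (H t) t D z := fun t z => by rw [hu]; rfl
  obtain ⟨𝓑, hne, hdis, hcov, hmin⟩ := hP (ℂ → ℂ) (Option (Fin L)) u (by
    funext z
    rw [Finset.sum_apply, Fintype.sum_option, hun]
    simp only [hus]
    rw [hsum z]
    simp)
  have hvan : ∀ B ∈ 𝓑, ∀ z, ∑ o ∈ B, u o z = 0 := by
    intro B hB z
    have h1 := congrFun (hmin B hB).1 z
    rwa [Finset.sum_apply] at h1
  -- n is positive
  have hn : 1 ≤ n := by
    by_contra hcon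
    obtain ⟨i, j, z, w, h⟩ := hnc
    have hn0 : n = 0 := by omega
    subst hn0
    apply h
    rw [show i = j from Fin.ext (by omega)]
  -- passing to the type of the elements of a block
  have hsub : ∀ B ∈ 𝓑, ∀ B' : Finset {o // o ∈ B}, B'.Nonempty → B' ≠ Finset.univ →
      ∃ z, ∑ o ∈ B', u o.1 z ≠ 0 := by
    intro B hB B' hB' hB'u
    have h1 := (hmin B hB).2 (B'.map (Function.Embedding.subtype _)) (by
      intro t ht
      rw [Finset.mem_map] at ht
      obtain ⟨a, -, rfl⟩ := ht
      exact a.2) (by simpa using hB') (by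
      intro h2
      apply hB'u
      rw [Finset.eq_univ_iff_forall]
      intro a
      have h3 : a.1 ∈ B'.map (Function.Embedding.subtype _) := by
        rw [h2]
        exact a.2
      rw [Finset.mem_map] at h3
      obtain ⟨b, hb, hba⟩ := h3
      have : b = a := Subtype.ext hba
      rwa [← this])
    by_contra hcon2
    push Not at hcon2
    apply h1
    funext z
    rw [Finset.sum_apply, Finset.sum_map]
    exact hcon2 z
  have hcard : ∀ B ∈ 𝓑, (Finset.eraseNone B).card ≤ n := by
    intro B hB
    by_contra hcon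
    push Not at hcon
    obtain ⟨i, j, z, w, h⟩ := hnc
    apply h
    obtain ⟨φ⟩ : Nonempty (Fin (n + 1) ↪ {t // t ∈ Finset.eraseNone B}) := by
      rw [Function.Embedding.nonempty_iff_card_le, Fintype.card_fin, Fintype.card_coe]
      exact hcon
    have hφB : ∀ i, some (φ i).1 ∈ B := fun i => Finset.mem_eraseNone.1 (φ i).2
    by_cases hnB : none ∈ B
    · -- the block with the constant
      have hc : Fintype.card {o // o ∈ B} = B.card := Fintype.card_coe B
      obtain ⟨g, hg⟩ : ∃ g : Fin (n + 1 + 1) → ℂ → ℂ,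
        g = fun i z => Fin.snoc (α := fun _ => ℂ) (fun j => f j z) 1 i := ⟨_, rfl⟩
      have hgl : ∀ z, g (Fin.last (n + 1)) z = 1 := fun z => by rw [hg]; simp
      have hgc : ∀ (j : Fin (n + 1)) z, g j.castSucc z = f j z := fun j z => by rw [hg]; simp
      obtain ⟨G, hG⟩ : ∃ G : Option (Fin L) → MvPolynomial (Fin (n + 1 + 1)) ℂ,
        G = fun o => Option.elim o (-(X (Fin.last (n + 1)) ^ e))
          (fun t => rename Fin.castSucc (H t)) := ⟨_, rfl⟩
      have hGn : G none = -(X (Fin.last (n + 1)) ^ e) := by rw [hG]; rfl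
      have hGs : ∀ t, G (some t) = rename Fin.castSucc (H t) := fun t => by rw [hG]; rfl
      have hGh : ∀ o, (G o).IsHomogeneous e := by
        intro o
        rcases o with _ | t
        · rw [hGn]
          have := ((isHomogeneous_X ℂ (Fin.last (n + 1))).pow e).neg
          rwa [one_mul] at this
        · rw [hGs]
          exact (hH t).rename_isHomogeneous
      have hterm : ∀ o z, eval (fun j => g j z) (G o) * eval (fun j => g j z) (lf (vecs o)) ^ D =
          u o z := by
        intro o z
        rcases o with _ | t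
        · rw [hGn, lf_eval, vecs_none, hun, hgl]
          simp [hgl]
        · rw [hGs, lf_eval, vecs_some, hus, eval_rename]
          unfold term
          rw [term_lf]
          have e1 : ((fun j => g j z) ∘ Fin.castSucc) = fun j => f j z := by
            funext j
            exact hgc j z
          rw [e1]
          simp only [hgc]
      have key := hD₂ D hDD₂ {o // o ∈ B} (by
          rw [hc]
          exact (Finset.card_le_univ B).trans (by simp)) (by
          rw [hc]
          have h5 : ({none, some (φ 0).1} : Finset (Option (Fin L))) ⊆ B := by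
            intro o ho
            rw [Finset.mem_insert, Finset.mem_singleton] at ho
            rcases ho with rfl | rfl
            · exact hnB
            · exact hφB 0
          have h6 := Finset.card_le_card h5
          rwa [Finset.card_pair (by simp)] at h6) (fun o => G o.1) (fun o => vecs o.1)
        (Fin.snoc (α := fun _ => {o // o ∈ B}) (fun i => ⟨some (φ i).1, hφB i⟩) ⟨none, hnB⟩) (by
          have h5 := vecs_indep (n := n) (fun i => (φ i).1) (fun a b hab =>
            φ.injective (Subtype.ext hab))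
          convert h5 using 2 with i
          refine Fin.lastCases ?_ (fun i => ?_) i
          · simp
          · simp) (fun o => hGh o.1) g (by
          intro i
          refine Fin.lastCases ?_ (fun i => ?_) i
          · have : g (Fin.last (n + 1)) = fun _ => 1 := funext hgl
            rw [this]
            exact differentiable_const _
          · have : g i.castSucc = f i := funext (hgc i)
            rw [this]
            exact hf i) (fun z => ⟨Fin.last (n + 1), by rw [hgl]; exact one_ne_zero⟩) (by
          intro z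
          have h1 := hvan B hB z
          rw [← Finset.sum_coe_sort] at h1
          rw [← h1]
          exact Finset.sum_congr rfl fun o _ => hterm o.1 z) (by
          intro B' hB' hB'u
          obtain ⟨z, hz⟩ := hsub B hB B' hB' hB'u
          refine ⟨z, ?_⟩
          intro h5
          apply hz
          rw [← h5]
          exact Finset.sum_congr rfl fun o _ => (hterm o.1 z).symm)
      have k1 := key i.castSucc (Fin.last (n + 1)) z w
      have k2 := key j.castSucc (Fin.last (n + 1)) z w
      rw [hgc, hgc, hgl, hgl, mul_one, one_mul] at k1 k2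
      rw [k1, k2, mul_comm]
    · -- a block without the constant
      have hB' : B = (Finset.eraseNone B).map Function.Embedding.some := by
        ext o
        rcases o with _ | t
        · simp [hnB]
        · simp
      obtain ⟨B₁, hB₁⟩ : ∃ B₁ : Finset (Fin L), B₁ = Finset.eraseNone B := ⟨_, rfl⟩
      rw [← hB₁] at hB' hcon
      have hc : Fintype.card {t // t ∈ B₁} = B₁.card := Fintype.card_coe B₁
      refine hD₁ D hDD₁ {t // t ∈ B₁} ?_ ?_ ?_ (fun t => H t.1) (fun t => (t.1 : ℕ)) ?_
        (fun t => hH t.1) f hf h0 ?_ ?_ i j z w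
      · rw [hc]
        exact (Finset.card_le_univ B₁).trans (by simp)
      · rw [hc]; omega
      · rw [hc]; omega
      · intro a b hab
        exact Subtype.ext (Fin.ext hab)
      · intro z
        have h1 := hvan B hB z
        rw [hB', Finset.sum_map] at h1
        rw [← Finset.sum_coe_sort] at h1
        rw [← h1]
        exact Finset.sum_congr rfl fun t _ => (hus t.1 z).symm
      · intro B' hB'n hB'u
        have h1 := (hmin B hB).2 ((B'.map (Function.Embedding.subtype _)).map
          Function.Embedding.some) (by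
          intro o ho
          rw [Finset.mem_map] at ho
          obtain ⟨t, ht, rfl⟩ := ho
          rw [Finset.mem_map] at ht
          obtain ⟨a, -, rfl⟩ := ht
          rw [hB', Finset.mem_map]
          exact ⟨a.1, a.2, rfl⟩) (by simpa using hB'n) (by
          intro h2
          apply hB'u
          rw [hB'] at h2
          have h2' := Finset.map_injective _ h2
          rw [Finset.eq_univ_iff_forall]
          intro a
          have h3 : a.1 ∈ B'.map (Function.Embedding.subtype _) := by
            rw [h2']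
            exact a.2
          rw [Finset.mem_map] at h3
          obtain ⟨b, hb, hba⟩ := h3
          have : b = a := Subtype.ext hba
          rwa [← this])
        by_contra hcon2
        push Not at hcon2
        apply h1
        funext z
        rw [Finset.sum_apply, Finset.sum_map, Finset.sum_map]
        rw [Pi.zero_apply, ← hcon2 z]
        exact Finset.sum_congr rfl fun t _ => hus _ z
  -- the blocks without the constant
  obtain ⟨𝓒, h𝓒⟩ : ∃ 𝓒 : Finset (Finset (Option (Fin L))), 𝓒 = 𝓑.filter fun B => none ∉ B :=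
    ⟨_, rfl⟩
  have h𝓒m : ∀ B, B ∈ 𝓒 ↔ B ∈ 𝓑 ∧ none ∉ B := by
    intro B
    rw [h𝓒, Finset.mem_filter]
  have hform : ∀ B : Finset (Option (Fin L)), none ∉ B →
      B = (Finset.eraseNone B).map Function.Embedding.some := by
    intro B hnB
    ext o
    rcases o with _ | t
    · simp [hnB]
    · simp
  have hinj : Set.InjOn (fun B : Finset (Option (Fin L)) => Finset.eraseNone B) 𝓒 := by
    intro B hB B' hB' h
    have h' : Finset.eraseNone B = Finset.eraseNone B' := h
    rw [hform B ((h𝓒m B).1 hB).2, hform B' ((h𝓒m B').1 hB').2, h']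
  have hcN : 𝓑.card ≤ 𝓒.card + 1 := by
    have h1 : (𝓑.filter fun B => ¬ (none ∉ B)).card ≤ 1 := by
      rw [Finset.card_le_one]
      intro B hB B' hB'
      rw [Finset.mem_filter, not_not] at hB hB'
      by_contra hBB'
      exact Finset.disjoint_left.1 (hdis B hB.1 B' hB'.1 hBB') hB.2 hB'.2
    have h2 := Finset.card_filter_add_card_filter_not (s := 𝓑) (fun B => none ∉ B)
    rw [← h𝓒] at h2
    omega
  refine ⟨𝓒.image fun B => Finset.eraseNone B, ?_, ?_, ?_, ?_⟩
  · intro B hB
    rw [Finset.mem_image] at hB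
    obtain ⟨B, hB, rfl⟩ := hB
    obtain ⟨o, ho⟩ := hne B ((h𝓒m B).1 hB).1
    rw [hform B ((h𝓒m B).1 hB).2, Finset.mem_map] at ho
    obtain ⟨t, ht, -⟩ := ho
    exact ⟨t, ht⟩
  · intro B hB B' hB' hBB'
    rw [Finset.mem_image] at hB hB'
    obtain ⟨B, hB, rfl⟩ := hB
    obtain ⟨B', hB', rfl⟩ := hB'
    have h1 := hdis B ((h𝓒m B).1 hB).1 B' ((h𝓒m B').1 hB').1 (fun h => hBB' (by rw [h]))
    rw [Finset.disjoint_left] at h1 ⊢
    intro t ht ht'
    rw [Finset.mem_eraseNone] at ht ht'
    exact h1 ht ht'
  · intro B hB z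
    rw [Finset.mem_image] at hB
    obtain ⟨B, hB, rfl⟩ := hB
    have h1 := hvan B ((h𝓒m B).1 hB).1 z
    rw [hform B ((h𝓒m B).1 hB).2, Finset.sum_map] at h1
    rw [← h1]
    exact Finset.sum_congr rfl fun t _ => (hus t z).symm
  · rw [Finset.card_image_of_injOn hinj]
    have hunion : (Finset.univ : Finset (Fin L)) ⊆ 𝓑.biUnion fun B => Finset.eraseNone B := by
      intro t _
      obtain ⟨B, hB, ht⟩ := hcov (some t)
      exact Finset.mem_biUnion.2 ⟨B, hB, Finset.mem_eraseNone.2 ht⟩
    have h1 := Finset.card_le_card hunion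
    have h2 : (𝓑.biUnion fun B => Finset.eraseNone B).card ≤ 𝓑.card * n :=
      Finset.card_biUnion_le_card_mul _ _ _ fun B hB => hcard B hB
    rw [Finset.card_univ, Fintype.card_fin] at h1
    have h3 : 𝓑.card * n ≤ (𝓒.card + 1) * n := Nat.mul_le_mul_right _ hcN
    rw [mul_comm]
    omega

end Pool.Agent.H4.BC
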