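import Pool.Graph.R_pool_sql_team_seeded_63374d34.N254.SQ.LocDefsZ

/-!
Complements of hypersurfaces: definitions.
-/

set_option autoImplicit false

namespace Pool.Agent.H4.BC

open MvPolynomial NumberField IsDedekindDomain
open Pool.Agent.N254.SQ (intPoints quasiPoints powerFormRing)
open scoped LinearAlgebra.Projectivization

/-- the form `y_0 ^ (D + 2) + ∑ t, Q_t(y) (y_0 + t y_1 + ⋯ + t ^ N y_N) ^ D` -/
noncomputable def unitForm {R : Type} [CommRing R] {N M : ℕ} (D : ℕ)
    (Q : Fin M → MvPolynomial (Fin (N + 1)) R) : MvPolynomial (Fin (N + 1)) R :=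
  X 0 ^ (D + 2) + powerFormRing D Q

/-- Condition (i) for the affine scheme `V` over `𝓞 K` given by `F`, the embedding `σ` and the closed
subscheme `V'` of `V` given by `G`: all nonconstant entire curves in `V` lie in `V'`. -/
def AffineCurves {K : Type} [Field K] {ι κ : Type} {n : ℕ} (σ : K →+* ℂ)
    (F : ι → MvPolynomial (Fin n) (𝓞 K)) (G : κ → MvPolynomial (Fin n) (𝓞 K)) : Prop :=
  ∀ f : ℂ → Fin n → ℂ, Differentiable ℂ f →
    (∀ z i, eval₂ (σ.comp (algebraMap (𝓞 K) K)) (f z) (F i) = 0) → (∃ z w, f z ≠ f w) →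
    ∀ z k, eval₂ (σ.comp (algebraMap (𝓞 K) K)) (f z) (G k) = 0

/-- Condition (ii) for the affine scheme `V` over `𝓞 K` given by `F` and the closed subscheme `V'` of
`V` given by `G`: `V(O_S) ∖ V'(O_S)` is finite for all finite extensions `L` of `K` and all finite `S`. -/
def AffinePoints {K : Type} [Field K] {ι κ : Type} {n : ℕ}
    (F : ι → MvPolynomial (Fin n) (𝓞 K)) (G : κ → MvPolynomial (Fin n) (𝓞 K)) : Prop :=
  ∀ (L : Type) [Field L] [NumberField L] [Algebra K L] (S : Set (HeightOneSpectrum (𝓞 L))),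
    S.Finite → (intPoints F L S \ intPoints G L S).Finite

/-- Condition (i) for the complement `X` in `P^N` over `𝓞 K` of the hypersurface `P = 0`, the embedding
`σ` and the closed subscheme of `X` given by the forms `G l`: all nonconstant entire curves in `X` (given
by vectors of entire functions on which `P` does not vanish) lie in it. -/
def ComplementCurves {K : Type} [Field K] {τ : Type} {N : ℕ} (σ : K →+* ℂ)
    (P : MvPolynomial (Fin (N + 1)) (𝓞 K)) (G : τ → MvPolynomial (Fin (N + 1)) (𝓞 K)) : Prop :=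
  ∀ f : ℂ → Fin (N + 1) → ℂ, Differentiable ℂ f → (∀ z, f z ≠ 0) →
    (∀ z, eval₂ (σ.comp (algebraMap (𝓞 K) K)) (f z) P ≠ 0) →
    (∃ z w, ∀ c : ℂ, f w ≠ c • f z) →
    ∀ z l, eval₂ (σ.comp (algebraMap (𝓞 K) K)) (f z) (G l) = 0

/-- `X(O_S)` for the complement `X` of the hypersurface `P = 0` in `P^N` over `𝓞 K`: the points of
`P^N(L)` which are not on the hypersurface, and whose reductions at all primes `v` outside of `S` are
not on it: for a multiple `c x` of the vector of coordinates which is integral at `v`, and not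
divisible by `v`, the value of `P` is a unit at `v`. -/
def complementPoints {K : Type} [Field K] {N : ℕ} (P : MvPolynomial (Fin (N + 1)) (𝓞 K))
    (L : Type) [Field L] [NumberField L] [Algebra K L] (S : Set (HeightOneSpectrum (𝓞 L))) :
    Set (ℙ L (Fin (N + 1) → L)) :=
  {p | eval₂ ((algebraMap K L).comp (algebraMap (𝓞 K) K)) p.rep P ≠ 0 ∧
    ∀ v ∉ S, ∃ c : L, (∀ j, v.valuation L (c * p.rep j) ≤ 1) ∧
      (∃ j, v.valuation L (c * p.rep j) = 1) ∧
      v.valuation L
        (eval₂ ((algebraMap K L).comp (algebraMap (𝓞 K) K)) (fun j => c * p.rep j) P) = 1}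

/-- Condition (ii) for the complement `X` in `P^N` over `𝓞 K` of the hypersurface `P = 0` and the closed
subscheme of `X` given by the forms `G l`: only finitely many points of `X(O_S)` are outside of it, for
all finite extensions `L` of `K` and all finite `S`. -/
def ComplementPoints {K : Type} [Field K] {τ : Type} {N : ℕ}
    (P : MvPolynomial (Fin (N + 1)) (𝓞 K)) (G : τ → MvPolynomial (Fin (N + 1)) (𝓞 K)) : Prop :=
  ∀ (L : Type) [Field L] [NumberField L] [Algebra K L] (S : Set (HeightOneSpectrum (𝓞 L))),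
    S.Finite → (complementPoints P L S \
      {p | ∀ l, eval₂ ((algebraMap K L).comp (algebraMap (𝓞 K) K)) p.rep (G l) = 0}).Finite

/-- `m` enumerates the exponent vectors of the monomials of degree `1, …, d` in `n` variables -/
structure AffineMonomials (n N d : ℕ) (m : Fin N → Fin n → ℕ) : Prop where
  pos : ∀ b, 1 ≤ ∑ j, m b j
  deg : ∀ b, ∑ j, m b j ≤ d
  inj : Function.Injective m
  surj : ∀ α : Fin n → ℕ, 1 ≤ ∑ j, α j → ∑ j, α j ≤ d → ∃ b, m b = α

/-- the affine Veronese map given by the monomials of degree `1, …, d` -/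
def affineVeronese {n N : ℕ} {Ω : Type} [Field Ω] (m : Fin N → Fin n → ℕ) (x : Fin n → Ω) :
    Fin N → Ω := fun b => ∏ j, x j ^ m b j

end Pool.Agent.H4.BC
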