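import Pool.Agent.H4.BC.GeoU

/-!
Affine schemes as closed subschemes of complements of smooth hypersurfaces: entire curves and
integral points.
-/

set_option autoImplicit false

namespace Pool.Agent.H4.BC

open MvPolynomial NumberField IsDedekindDomain
open Pool.Agent.N254.SQ
open scoped LinearAlgebra.Projectivization

/-- the homogenization of a polynomial -/
noncomputable def homz {R : Type} [CommRing R] {N : ℕ} (p : MvPolynomial (Fin N) R) :
    MvPolynomial (Fin (N + 1)) R :=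
  ∑ s ∈ p.support, C (coeff s p) *
    (X 0 ^ (p.totalDegree - ∑ j, s j) * ∏ j : Fin N, X j.succ ^ s j)

theorem homz_deg {R : Type} [CommRing R] {N : ℕ} {p : MvPolynomial (Fin N) R}
    {s : Fin N →₀ ℕ} (hs : s ∈ p.support) : ∑ j, s j ≤ p.totalDegree := by
  have h1 := le_totalDegree hs
  rwa [Finsupp.sum_fintype _ _ (fun _ => rfl)] at h1

theorem homz_form {R : Type} [CommRing R] {N : ℕ} (p : MvPolynomial (Fin N) R) :
    (homz p).IsHomogeneous p.totalDegree := by
  refine IsHomogeneous.sum _ _ _ fun s hs => ?_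
  have h1 : (X 0 ^ (p.totalDegree - ∑ j, s j) : MvPolynomial (Fin (N + 1)) R).IsHomogeneous
      (1 * (p.totalDegree - ∑ j, s j)) := (isHomogeneous_X R 0).pow _
  have h2 : (∏ j : Fin N, X j.succ ^ s j : MvPolynomial (Fin (N + 1)) R).IsHomogeneous
      (∑ j : Fin N, 1 * s j) := IsHomogeneous.prod _ _ _ fun j _ => (isHomogeneous_X R j.succ).pow _
  have h3 := (isHomogeneous_C (Fin (N + 1)) (coeff s p)).mul (h1.mul h2)
  have h4 : 0 + (1 * (p.totalDegree - ∑ j, s j) + ∑ j : Fin N, 1 * s j) = p.totalDegree := by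
    simp only [one_mul, zero_add]
    have := homz_deg hs
    omega
  rwa [h4] at h3

theorem homz_eval {R Ω : Type} [CommRing R] [Field Ω] (τ : R →+* Ω) {N : ℕ}
    (p : MvPolynomial (Fin N) R) (u : Fin N → Ω) :
    eval₂ τ (Fin.cons 1 u : Fin (N + 1) → Ω) (homz p) = eval₂ τ u p := by
  unfold homz
  rw [← coe_eval₂Hom, map_sum, coe_eval₂Hom, eval₂_eq']
  refine Finset.sum_congr rfl fun s _ => ?_
  rw [eval₂_mul, eval₂_C, eval₂_mul, eval₂_pow, eval₂_X, Fin.cons_zero, one_pow, one_mul]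
  congr 1
  rw [← coe_eval₂Hom, map_prod]
  refine Finset.prod_congr rfl fun j _ => ?_
  rw [map_pow, coe_eval₂Hom, eval₂_X, Fin.cons_succ]

/-- values of forms at multiples of a point -/
theorem scale' {K Ω : Type} [Field K] [Field Ω] (τ : K →+* Ω) {N e : ℕ}
    {p : MvPolynomial (Fin (N + 1)) (𝓞 K)} (hp : p.IsHomogeneous e) (c : Ω)
    (x : Fin (N + 1) → Ω) :
    eval₂ (τ.comp (algebraMap (𝓞 K) K)) (c • x) p =
      c ^ e * eval₂ (τ.comp (algebraMap (𝓞 K) K)) x p := zb_scale τ hp c x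

theorem unitForm_hom {R : Type} [CommRing R] {N M D : ℕ} {Q : Fin M → MvPolynomial (Fin (N + 1)) R}
    (hQ : ∀ t, (Q t).IsHomogeneous 2) : (unitForm D Q).IsHomogeneous (D + 2) := by
  refine IsHomogeneous.add ?_ ?_
  · have := (isHomogeneous_X R (0 : Fin (N + 1))).pow (D + 2)
    rwa [one_mul] at this
  · refine IsHomogeneous.sum _ _ _ fun t _ => ?_
    have h1 : (∑ j : Fin (N + 1), C (((t : ℕ) : R) ^ (j : ℕ)) * X j :
        MvPolynomial (Fin (N + 1)) R).IsHomogeneous 1 := by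
      refine IsHomogeneous.sum _ _ _ fun j _ => ?_
      have h2 := (isHomogeneous_C (Fin (N + 1)) (((t : ℕ) : R) ^ (j : ℕ))).mul (isHomogeneous_X R j)
      rwa [zero_add] at h2
    have h3 := (hQ t).mul (h1.pow D)
    rwa [one_mul, add_comm 2 D] at h3

/-- the value of the form at the zeros of the `Q t` -/
theorem unitForm_eval {R Ω : Type} [CommRing R] [Field Ω] (τ : R →+* Ω) {N M D : ℕ}
    {Q : Fin M → MvPolynomial (Fin (N + 1)) R} (y : Fin (N + 1) → Ω)
    (h : ∀ t, eval₂ τ y (Q t) = 0) : eval₂ τ y (unitForm D Q) = y 0 ^ (D + 2) := by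
  unfold unitForm powerFormRing
  rw [eval₂_add, eval₂_pow, eval₂_X, eval₂_sum, Finset.sum_eq_zero, add_zero]
  intro t _
  rw [eval₂_mul, h, zero_mul]

/-- the data of an affine scheme as a closed subscheme of the complement of a hypersurface, with all
entire curves of the complement -/
structure Emb {K : Type} [Field K] {n N : ℕ} (σ : K →+* ℂ) (b : Fin n → Fin N) {ι κ : Type}
    (F : ι → MvPolynomial (Fin n) (𝓞 K)) (w : ∀ (Ω : Type) [Field Ω], (Fin n → Ω) → Fin N → Ω)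
    (q : κ → MvPolynomial (Fin (N + 1)) (𝓞 K)) (e : ℕ) (P : MvPolynomial (Fin (N + 1)) (𝓞 K)) :
    Prop where
  formP : P.IsHomogeneous e
  pos : 1 ≤ e
  formq : ∀ i, (q i).IsHomogeneous 2
  val : ∀ (Ω : Type) [Field Ω] (τ : K →+* Ω) (y : Fin (N + 1) → Ω),
    (∀ i, eval₂ (τ.comp (algebraMap (𝓞 K) K)) y (q i) = 0) →
      eval₂ (τ.comp (algebraMap (𝓞 K) K)) y P = y 0 ^ e
  van : ∀ (Ω : Type) [Field Ω] (τ : K →+* Ω) (x : Fin n → Ω),
    (∀ i, eval₂ (τ.comp (algebraMap (𝓞 K) K)) x (F i) = 0) →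
    ∀ i, eval₂ (τ.comp (algebraMap (𝓞 K) K)) (Fin.cons 1 (w Ω x) : Fin (N + 1) → Ω) (q i) = 0
  lift : ∀ (Ω : Type) [Field Ω] (τ : K →+* Ω) (y : Fin (N + 1) → Ω), y 0 ≠ 0 →
    (∀ i, eval₂ (τ.comp (algebraMap (𝓞 K) K)) y (q i) = 0) →
    ∃ x : Fin n → Ω, (∀ i, eval₂ (τ.comp (algebraMap (𝓞 K) K)) x (F i) = 0) ∧
      y = y 0 • (Fin.cons 1 (w Ω x) : Fin (N + 1) → Ω)
  proj : ∀ (Ω : Type) [Field Ω] (x : Fin n → Ω) (j : Fin n), w Ω x (b j) = x j
  diff : ∀ f : ℂ → Fin n → ℂ, Differentiable ℂ f → Differentiable ℂ fun z => w ℂ (f z)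
  int : ∀ (L : Type) [Field L] [NumberField L] (S : Set (HeightOneSpectrum (𝓞 L)))
    (x : Fin n → L), (∀ j, x j ∈ S.integer L) → ∀ a, w L x a ∈ S.integer L
  curves : ComplementCurves σ P q

section

variable {K : Type} [Field K] {n N : ℕ} {σ : K →+* ℂ} {b : Fin n → Fin N} {ι κ₀ : Type}
  {F : ι → MvPolynomial (Fin n) (𝓞 K)} {w : ∀ (Ω : Type) [Field Ω], (Fin n → Ω) → Fin N → Ω}
  {q : κ₀ → MvPolynomial (Fin (N + 1)) (𝓞 K)} {e : ℕ} {P : MvPolynomial (Fin (N + 1)) (𝓞 K)}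

/-- the forms of the image of a closed subscheme -/
noncomputable def imForms {κ : Type} (b : Fin n → Fin N)
    (q : κ₀ → MvPolynomial (Fin (N + 1)) (𝓞 K))
    (G : κ → MvPolynomial (Fin n) (𝓞 K)) : κ₀ ⊕ κ → MvPolynomial (Fin (N + 1)) (𝓞 K) :=
  Sum.elim q fun k => homz (rename b (G k))

theorem imForms_form (H : Emb σ b F w q e P) {κ : Type} (G : κ → MvPolynomial (Fin n) (𝓞 K))
    (l : κ₀ ⊕ κ) : ∃ d, (imForms b q G l).IsHomogeneous d := by
  rcases l with i | k
  · exact ⟨2, H.formq i⟩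
  · exact ⟨_, homz_form _⟩

/-- the zeros of the forms of the image -/
theorem imForms_iff (H : Emb σ b F w q e P) {κ : Type} (G : κ → MvPolynomial (Fin n) (𝓞 K))
    (Ω : Type) [Field Ω] (τ : K →+* Ω) (x : Fin n → Ω)
    (hx : ∀ i, eval₂ (τ.comp (algebraMap (𝓞 K) K)) x (F i) = 0) (c : Ω) (hc : c ≠ 0) :
    (∀ l, eval₂ (τ.comp (algebraMap (𝓞 K) K))
      (c • (Fin.cons 1 (w Ω x) : Fin (N + 1) → Ω)) (imForms b q G l) = 0) ↔
      ∀ k, eval₂ (τ.comp (algebraMap (𝓞 K) K)) x (G k) = 0 := by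
  rw [Sum.forall]
  constructor
  · rintro ⟨-, h2⟩ k
    have h3 := h2 k
    unfold imForms at h3
    rw [Sum.elim_inr, scale' τ (homz_form _), homz_eval, eval₂_rename] at h3
    have h4 := (mul_eq_zero.1 h3).resolve_left (pow_ne_zero _ hc)
    have h5 : (w Ω x ∘ b) = x := funext fun j => H.proj Ω x j
    rwa [h5] at h4
  · intro h
    refine ⟨fun i => ?_, fun k => ?_⟩
    · unfold imForms
      rw [Sum.elim_inl, scale' τ (H.formq i), H.van Ω τ x hx i, mul_zero]
    · unfold imForms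
      have h5 : (w Ω x ∘ b) = x := funext fun j => H.proj Ω x j
      rw [Sum.elim_inr, scale' τ (homz_form _), homz_eval, eval₂_rename, h5, h k, mul_zero]

/-- entire curves -/
theorem emb_curves (H : Emb σ b F w q e P) {κ : Type} (G : κ → MvPolynomial (Fin n) (𝓞 K)) :
    AffineCurves σ F G ↔ ComplementCurves σ P (imForms b q G) := by
  constructor
  · intro h f hf hf0 hP hnc
    have hq := H.curves f hf hf0 hP hnc
    have h0 : ∀ z, f z 0 ≠ 0 := by
      intro z h0
      apply hP z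
      rw [H.val ℂ σ (f z) (hq z), h0, zero_pow (by have := H.pos; omega)]
    choose x hx hfx using fun z => H.lift ℂ σ (f z) (h0 z) (hq z)
    have hxb : ∀ z j, x z j = f z (b j).succ / f z 0 := by
      intro z j
      have h1 := congrFun (hfx z) (b j).succ
      rw [Pi.smul_apply, Fin.cons_succ, H.proj, smul_eq_mul] at h1
      rw [h1, mul_div_cancel_left₀ _ (h0 z)]
    have hxd : Differentiable ℂ x := by
      rw [differentiable_pi]
      intro j
      have h1 : (fun z => x z j) = fun z => f z (b j).succ / f z 0 := funext fun z => hxb z j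
      rw [h1]
      exact (differentiable_pi.1 hf _).fun_div (differentiable_pi.1 hf _) h0
    have hG := h x hxd hx (by
      obtain ⟨z1, z2, h12⟩ := hnc
      refine ⟨z1, z2, fun h1 => h12 (f z2 0 / f z1 0) ?_⟩
      rw [hfx z1, hfx z2, h1, smul_smul]
      congr 1
      simp only [Pi.smul_apply, Fin.cons_zero, smul_eq_mul, mul_one]
      rw [div_mul_cancel₀ _ (h0 z1)])
    intro z
    rw [hfx z]
    exact (imForms_iff H G ℂ σ (x z) (hx z) (f z 0) (h0 z)).2 (hG z)
  · intro h x hx hF hnc z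
    have h1 := h (fun z => (Fin.cons 1 (w ℂ (x z)) : Fin (N + 1) → ℂ)) (by
      rw [differentiable_pi]
      intro j
      refine Fin.cases ?_ (fun j => ?_) j
      · simp only [Fin.cons_zero]
        exact differentiable_const _
      · simp only [Fin.cons_succ]
        exact differentiable_pi.1 (H.diff x hx) j) (fun z h0 => by
        have h1 := congrFun h0 0
        simp at h1) (fun z => by
        rw [H.val ℂ σ _ (H.van ℂ σ (x z) (hF z)), Fin.cons_zero, one_pow]
        exact one_ne_zero) (by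
        obtain ⟨z1, z2, h12⟩ := hnc
        refine ⟨z1, z2, fun c hc => h12 ?_⟩
        have hc0 := congrFun hc 0
        rw [Pi.smul_apply, Fin.cons_zero, Fin.cons_zero, smul_eq_mul, mul_one] at hc0
        funext j
        have hcj := congrFun hc (b j).succ
        rw [Pi.smul_apply, Fin.cons_succ, Fin.cons_succ, H.proj, H.proj, ← hc0, one_smul] at hcj
        exact hcj.symm) z
    have h2 := imForms_iff H G ℂ σ (x z) (hF z) 1 one_ne_zero
    rw [one_smul] at h2
    exact h2.1 h1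

/-- the point of `P^N` -/
noncomputable def embPt {L : Type} [Field L] (w : ∀ (Ω : Type) [Field Ω], (Fin n → Ω) → Fin N → Ω)
    (x : Fin n → L) : ℙ L (Fin (N + 1) → L) :=
  Projectivization.mk L (Fin.cons 1 (w L x)) (fun h => by
    have := congrFun h 0
    simp at this)

theorem embPt_rep {L : Type} [Field L] (x : Fin n → L) : ∃ c : L, c ≠ 0 ∧
    (embPt w x).rep = c • (Fin.cons 1 (w L x) : Fin (N + 1) → L) := by
  obtain ⟨u, hu⟩ := Projectivization.exists_smul_eq_mk_rep L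
    (Fin.cons 1 (w L x) : Fin (N + 1) → L) (fun h => by
      have := congrFun h 0
      simp at this)
  exact ⟨u, u.ne_zero, hu.symm⟩

theorem embPt_inj (H : Emb σ b F w q e P) (L : Type) [Field L] :
    Function.Injective (embPt (L := L) w) := by
  intro x x' h
  unfold embPt at h
  rw [Projectivization.mk_eq_mk_iff'] at h
  obtain ⟨c, hc⟩ := h
  have hc0 := congrFun hc 0
  rw [Pi.smul_apply, Fin.cons_zero, Fin.cons_zero, smul_eq_mul, mul_one] at hc0
  funext j
  have hcj := congrFun hc (b j).succ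
  rw [Pi.smul_apply, Fin.cons_succ, Fin.cons_succ, H.proj, H.proj, hc0, one_smul] at hcj
  exact hcj.symm

theorem embPt_mem (H : Emb σ b F w q e P) (L : Type) [Field L] [NumberField L] [Algebra K L]
    (S : Set (HeightOneSpectrum (𝓞 L))) {x : Fin n → L} (hx : x ∈ intPoints F L S) :
    embPt w x ∈ complementPoints P L S := by
  obtain ⟨hx1, hx2⟩ := hx
  obtain ⟨c, hc, hrep⟩ := embPt_rep (N := N) (w := w) x
  have hv := H.val L (algebraMap K L) _ (H.van L (algebraMap K L) x hx2)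
  rw [Fin.cons_zero, one_pow] at hv
  have hmul : (fun j => c⁻¹ * (embPt w x).rep j) = (Fin.cons 1 (w L x) : Fin (N + 1) → L) := by
    funext j
    rw [hrep, Pi.smul_apply, smul_eq_mul, ← mul_assoc, inv_mul_cancel₀ hc, one_mul]
  refine ⟨?_, fun v hvS => ⟨c⁻¹, fun j => ?_, ⟨0, ?_⟩, ?_⟩⟩
  · rw [hrep, scale' _ H.formP, hv, mul_one]
    exact pow_ne_zero _ hc
  · have h1 : c⁻¹ * (embPt w x).rep j = _ := congrFun hmul j
    rw [h1]
    refine Fin.cases ?_ (fun j => ?_) j
    · rw [Fin.cons_zero, map_one]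
    · rw [Fin.cons_succ]
      exact H.int L S x hx1 j v hvS
  · have h1 : c⁻¹ * (embPt w x).rep 0 = _ := congrFun hmul 0
    rw [h1, Fin.cons_zero, map_one]
  · rw [hmul, hv, map_one]

theorem embPt_surj (H : Emb σ b F w q e P) (L : Type) [Field L] [NumberField L] [Algebra K L]
    (S : Set (HeightOneSpectrum (𝓞 L))) {p : ℙ L (Fin (N + 1) → L)}
    (hp : p ∈ complementPoints P L S)
    (hq : ∀ i, eval₂ ((algebraMap K L).comp (algebraMap (𝓞 K) K)) p.rep (q i) = 0) :
    ∃ x ∈ intPoints F L S, embPt w x = p := by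
  obtain ⟨hp1, hp2⟩ := hp
  have h0 : p.rep 0 ≠ 0 := by
    intro h0
    apply hp1
    rw [H.val L _ _ hq, h0, zero_pow (by have := H.pos; omega)]
  obtain ⟨x, hx, hpx⟩ := H.lift L _ _ h0 hq
  have hxb : ∀ j, x j = p.rep (b j).succ / p.rep 0 := by
    intro j
    have h1 := congrFun hpx (b j).succ
    rw [Pi.smul_apply, Fin.cons_succ, H.proj, smul_eq_mul] at h1
    rw [h1, mul_div_cancel_left₀ _ h0]
  refine ⟨x, ⟨fun j => ?_, hx⟩, ?_⟩
  · intro v hv
    obtain ⟨c, hc1, -, hc3⟩ := hp2 v hv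
    have hc : (fun j => c * p.rep j) = c • p.rep := rfl
    rw [hc, H.val L _ _ (fun i => by rw [scale' _ (H.formq i), hq i, mul_zero]), map_pow] at hc3
    have h1 : v.valuation L (c * p.rep 0) = 1 := by
      have h2 : e ≠ 0 := by have := H.pos; omega
      exact (pow_eq_one_iff.1 hc3).resolve_right h2
    have hcne : c ≠ 0 := by
      intro h
      rw [h, zero_mul, map_zero] at h1
      exact zero_ne_one h1
    have h3 : x j = (c * p.rep (b j).succ) / (c * p.rep 0) := by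
      rw [hxb j, mul_div_mul_left _ _ hcne]
    rw [h3, map_div₀, h1, div_one]
    exact hc1 _
  · rw [← p.mk_rep]
    unfold embPt
    rw [Projectivization.mk_eq_mk_iff']
    obtain ⟨a, ha⟩ : ∃ a, a = p.rep 0 := ⟨_, rfl⟩
    rw [← ha] at hpx h0
    refine ⟨a⁻¹, ?_⟩
    rw [hpx, smul_smul, inv_mul_cancel₀ h0, one_smul]

/-- integral points -/
theorem emb_points (H : Emb σ b F w q e P) {κ : Type} (G : κ → MvPolynomial (Fin n) (𝓞 K)) :
    ComplementPoints P (imForms b q G) ↔ ComplementPoints P q ∧ AffinePoints F G := by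
  have key : ∀ (L : Type) [Field L] [NumberField L] [Algebra K L]
      (S : Set (HeightOneSpectrum (𝓞 L))) (x : Fin n → L), x ∈ intPoints F L S →
      ((∀ l, eval₂ ((algebraMap K L).comp (algebraMap (𝓞 K) K)) (embPt w x).rep
        (imForms b q G l) = 0) ↔ x ∈ intPoints G L S) := by
    intro L _ _ _ S x hx
    obtain ⟨c, hc, hrep⟩ := embPt_rep (N := N) (w := w) x
    rw [hrep, imForms_iff H G L (algebraMap K L) x hx.2 c hc]
    exact ⟨fun h => ⟨hx.1, h⟩, fun h => h.2⟩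
  constructor
  · intro h
    refine ⟨fun L _ _ _ S hS => (h L S hS).subset ?_, fun L _ _ _ S hS => ?_⟩
    · rintro p ⟨hp1, hp2⟩
      exact ⟨hp1, fun h2 => hp2 fun i => h2 (Sum.inl i)⟩
    · refine Set.Finite.of_finite_image ((h L S hS).subset ?_) ((embPt_inj H L).injOn)
      rintro _ ⟨x, ⟨hx1, hx2⟩, rfl⟩
      exact ⟨embPt_mem H L S hx1, fun h2 => hx2 ((key L S x hx1).1 h2)⟩
  · rintro ⟨h1, h2⟩ L _ _ _ S hS
    refine ((h1 L S hS).union ((h2 L S hS).image (embPt w))).subset ?_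
    rintro p ⟨hp1, hp2⟩
    by_cases hq : ∀ i, eval₂ ((algebraMap K L).comp (algebraMap (𝓞 K) K)) p.rep (q i) = 0
    · right
      obtain ⟨x, hx, rfl⟩ := embPt_surj H L S hp1 hq
      exact ⟨x, ⟨hx, fun h3 => hp2 ((key L S x hx).2 h3)⟩, rfl⟩
    · left
      exact ⟨hp1, hq⟩

end

/-- every affine scheme of positive embedding dimension is such a closed subscheme -/
theorem exists_emb : ∃ D₁ : ℕ → ℕ, (∀ (n N d : ℕ) (m : Fin (N + 1) → Fin (n + 1) → ℕ), 1 ≤ n →
    3 ≤ d → Mon n N d m → m 0 0 = d → (∀ j : Fin n, m 0 j.succ = 0) → 2 * n < N →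
    ∀ D, D₁ N ≤ D → ∀ (K : Type) [Field K] [NumberField K] (ι : Type) [Finite ι]
      (F : ι → MvPolynomial (Fin n) (𝓞 K)), (∀ i, (F i).totalDegree ≤ d) →
      ∃ (κ : Type) (_ : Fintype κ) (q : κ → MvPolynomial (Fin (N + 1)) (𝓞 K))
        (c : Fin (N * (2 * N + 3)) × κ → ℕ) (b : Fin n → Fin N),
        SmoothOver (map (algebraMap (𝓞 K) K)
          (unitForm D fun t => ∑ i, C (c (t, i) : 𝓞 K) * q i)) ∧
        ∀ σ : K →+* ℂ, Emb σ b F (fun _ _ x => blva_w m x) q (D + 2)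
          (unitForm D fun t => ∑ i, C (c (t, i) : 𝓞 K) * q i)) := by
  obtain ⟨D₁, hD₁⟩ := geo_unit
  refine ⟨D₁, fun n N d m hn hd hm hm00 hm0s hN D hD K _ _ ι _ F hF => ?_⟩
  obtain ⟨κ, _, q, c, hq, hsm, hv, hl, hcur⟩ := hD₁ n N d m hn hd hm hm00 hm0s hN D hD K ι F hF
  obtain ⟨b, hb⟩ := blva_ind hm (by omega) hm0s
  have hQ : ∀ t, (∑ i, C (c (t, i) : 𝓞 K) * q i).IsHomogeneous 2 := by
    intro t
    refine IsHomogeneous.sum _ _ _ fun i _ => ?_
    have := (isHomogeneous_C (Fin (N + 1)) (c (t, i) : 𝓞 K)).mul (hq i)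
    rwa [zero_add] at this
  refine ⟨κ, inferInstance, q, c, b, hsm, fun σ => ?_⟩
  refine ⟨unitForm_hom hQ, by omega, hq, ?_, hv, hl, ?_, ?_, ?_, ?_⟩
  · intro Ω _ τ y hy
    apply unitForm_eval
    intro t
    rw [eval₂_sum]
    refine Finset.sum_eq_zero fun i _ => ?_
    rw [eval₂_mul, hy i, mul_zero]
  · intro Ω _ x j
    exact blva_pi hb x j
  · intro f hf
    exact blva_w_diff hf
  · intro L _ _ S x hx a
    exact prod_mem fun j _ => pow_mem (hx j) _
  · intro f hf _ hP hnc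
    exact hcur σ f hf hP hnc

end Pool.Agent.H4.BC
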