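import Pool.Agent.H4.BC.CurvesG
import Pool.Agent.H4.BC.SmoothG
import Pool.Graph.R_pool_sql_team_seeded_63374d34.N254.SQ.Fin

/-!
Complements of smooth hypersurfaces: the main theorem for the zeros of forms of the same degree.
-/

set_option autoImplicit false

namespace Pool.Agent.H4.BC

open MvPolynomial Filter Topology
open Pool.Agent.N254.SQ

/-- `x_0 ^ (D + e) + ∑ t, (∑ i, c_(t, i) q_i) ℓ_t ^ D` -/
noncomputable def uhyp {K : Type} [Field K] {n L : ℕ} {ι : Type} [Fintype ι]
    (q : ι → MvPolynomial (Fin (n + 1)) K) (D e : ℕ) (c : Fin L × ι → K) :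
    MvPolynomial (Fin (n + 1)) K := X 0 ^ (D + e) + hyp q D c

theorem lin_zero (K : Type) [Field K] (n : ℕ) : lin K n 0 = X 0 := by
  unfold lin
  rw [Fin.sum_univ_succ, Finset.sum_eq_zero]
  · simp
  · intro j _
    simp

theorem uhyp_gens {K Ω : Type} [Field K] [Field Ω] [Algebra K Ω] {n L : ℕ} {ι : Type} [Fintype ι]
    (q : ι → MvPolynomial (Fin (n + 1)) K) (D e : ℕ) (c : Option (Fin L × ι) → Ω) :
    ∑ s, C (c s) * map (algebraMap K Ω) (gens q D e s) =
      C (c none) * X 0 ^ (D + e) + ∑ t : Fin L, (∑ i, C (c (some (t, i))) *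
        map (algebraMap K Ω) (q i)) * lin Ω n (t : ℕ) ^ D := by
  rw [Fintype.sum_option, Fintype.sum_prod_type]
  congr 1
  · simp [gens]
  · refine Finset.sum_congr rfl fun t _ => ?_
    rw [Finset.sum_mul]
    refine Finset.sum_congr rfl fun i _ => ?_
    unfold gens
    rw [map_mul, map_pow, smooth_lin_map K Ω, mul_assoc]

/-- an entire root of a nowhere vanishing entire function -/
theorem entire_root (h : ℂ → ℂ) (hh : Differentiable ℂ h) (h0 : ∀ z, h z ≠ 0) (d : ℕ)
    (hd : 1 ≤ d) : ∃ r : ℂ → ℂ, Differentiable ℂ r ∧ (∀ z, r z ≠ 0) ∧ ∀ z, r z ^ d = h z := by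
  have hm : Mon 0 0 d (fun _ _ => d) := by
    refine ⟨fun a => by simp, fun a b _ => Fin.ext (by omega), fun α hα => ⟨0, ?_⟩⟩
    funext j
    have : j = 0 := Fin.ext (by omega)
    subst this
    simpa using hα.symm
  obtain ⟨F, hF, hF2⟩ := t_lift 0 0 d _ hm hd ℂ (fun z _ => h z) (by
    rw [differentiable_pi]
    exact fun _ => hh) (fun z => by
    obtain ⟨s, hs⟩ := IsAlgClosed.exists_pow_nat_eq (h z) (n := d) (by omega)
    refine ⟨fun _ => s, ?_, ?_⟩
    · intro h1
      have h2 := congrFun h1 0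
      simp only [Pi.zero_apply] at h2
      rw [h2, zero_pow (by omega)] at hs
      exact h0 z hs.symm
    · funext a
      unfold ver
      simp [hs])
  have hr : ∀ z, F z 0 ^ d = h z := by
    intro z
    have := congrFun (hF2 z) 0
    unfold ver at this
    simpa using this.symm
  refine ⟨fun z => F z 0, differentiable_pi.1 hF 0, fun z h1 => ?_, hr⟩
  have h2 := hr z
  have h1' : F z 0 = 0 := h1
  rw [h1', zero_pow (by omega)] at h2
  exact h0 z h2.symm

/-- MAIN: the complement of a general hypersurface of the form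
`x_0 ^ (D + e) + ∑ t, Q_t ℓ_t ^ D`, where the `Q_t` are combinations with natural coefficients of the
forms `q_i` -/
theorem main_unit (hP : Part_stm) (hS : Size_stm) (hS2 : SizeG_stm) (hB : Blocks_stm)
    (h1 : Spec_stm) (h2 : Count_stm) (h3 : Td_stm)
    (n e : ℕ) (hn : 1 ≤ n) (he : 1 ≤ e) : ∃ D₁ : ℕ, ∀ D, D₁ ≤ D → ∀ (K : Type) [Field K] [CharZero K]
      (ι : Type) [Fintype ι] (q : ι → MvPolynomial (Fin (n + 1)) K),
      (∀ i, (q i).IsHomogeneous e) → ∀ r : ℕ,
      (∀ (Ω : Type) [Field Ω] [Algebra K Ω] (x : Fin (n + 1) → Ω), x ≠ 0 →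
        (∀ i, aeval x (q i) = 0) →
        r < (Matrix.of fun (i : ι) (j : Fin (n + 1)) => (aeval x (pderiv j (q i)) : Ω)).rank) →
      (∀ (Ω : Type) [Field Ω] [Algebra K Ω] (x : Fin (n + 1) → Ω) (a : Fin (n + 1)), x a = 1 →
        (∀ i, aeval x (q i) = 0) → Algebra.trdeg K (Algebra.adjoin K (Set.range x)) ≤ r) →
      ∃ c : Fin (n * (2 * n + 3)) × ι → ℕ, Smooth (uhyp q D e fun p => (c p : K)) ∧
        ∀ (σ : K →+* ℂ) (f : Fin (n + 1) → ℂ → ℂ), (∀ j, Differentiable ℂ (f j)) →
          (∀ z, eval (fun j => f j z) (map σ (uhyp q D e fun p => (c p : K))) ≠ 0) →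
          (∃ i j z w, f i z * f j w ≠ f j z * f i w) →
          ∀ z i, eval (fun j => f j z) (map σ (q i)) = 0 := by
  classical
  obtain ⟨D₁, hD₁⟩ := curvesG hP hS hS2 n e (n * (2 * n + 3))
  refine ⟨max D₁ 1, fun D hD K _ _ ι _ q hq r hr1 hr2 => ?_⟩
  have hDD : D₁ ≤ D := le_trans (le_max_left _ _) hD
  have hD1 : 1 ≤ D := le_trans (le_max_right _ _) hD
  set L := n * (2 * n + 3) with hL
  have hL2 : 2 * n + 3 ≤ L := Nat.le_mul_of_pos_left _ hn
  obtain ⟨Δ₁, hΔ₁, hB1⟩ := hB K n L D e ι q hq
  obtain ⟨Δ₂, hΔ₂, hS1⟩ := smooth_gens h1 h2 h3 (L := L) hq hD1 (by omega) hr1 hr2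
  -- the choice of the coefficients
  obtain ⟨Φ, hΦ⟩ : ∃ Φ : MvPolynomial (Option (Fin L × ι)) K,
    Φ = aeval (fun s => Option.elim s (X none) fun s => X none * X (some s) :
      Option (Fin L × ι) → MvPolynomial (Option (Fin L × ι)) K) Δ₂ := ⟨_, rfl⟩
  have hΦe : ∀ x : Option (Fin L × ι) → K, eval x Φ =
      eval (fun s => Option.elim s (x none) fun s => x none * x (some s)) Δ₂ := by
    intro x
    rw [hΦ]
    have h4 := comp_aeval_apply (B := K) (fun s => Option.elim s (X none) fun s =>
      X none * X (some s) : Option (Fin L × ι) → MvPolynomial (Option (Fin L × ι)) K)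
      (aeval x : MvPolynomial (Option (Fin L × ι)) K →ₐ[K] K) Δ₂
    have h5 : (fun s => (aeval x : MvPolynomial (Option (Fin L × ι)) K →ₐ[K] K)
        (Option.elim s (X none) fun s => X none * X (some s))) =
        fun s => Option.elim s (x none) fun s => x none * x (some s) := by
      funext s
      rcases s with _ | s
      · simp
      · simp
    rw [h5] at h4
    exact h4
  have hΦ0 : Φ ≠ 0 := by
    intro h0
    apply hΔ₂
    have h4 : X none * Δ₂ = 0 := by
      apply MvPolynomial.funext
      intro x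
      rw [map_mul, eval_X, map_zero]
      by_cases hx : x none = 0
      · rw [hx, zero_mul]
      · have h5 := hΦe fun s => Option.elim s (x none) fun s => (x none)⁻¹ * x (some s)
        rw [h0, map_zero] at h5
        have h6 : (fun s => Option.elim s
            ((fun s => Option.elim s (x none) fun s => (x none)⁻¹ * x (some s) :
              Option (Fin L × ι) → K) none) fun s =>
            (fun s => Option.elim s (x none) fun s => (x none)⁻¹ * x (some s) :
              Option (Fin L × ι) → K) none *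
            (fun s => Option.elim s (x none) fun s => (x none)⁻¹ * x (some s) :
              Option (Fin L × ι) → K) (some s)) = x := by
          funext s
          rcases s with _ | s
          · rfl
          · simp only [Option.elim_some, Option.elim_none]
            rw [← mul_assoc, mul_inv_cancel₀ hx, one_mul]
        rw [h6] at h5
        rw [← h5, mul_zero]
    exact (mul_eq_zero.1 h4).resolve_left (X_ne_zero _)
  have hR0 : rename (some : Fin L × ι → Option (Fin L × ι)) Δ₁ ≠ 0 := by
    intro h0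
    exact hΔ₁ (rename_injective _ (Option.some_injective _) (by rw [h0, map_zero]))
  obtain ⟨x, hxs, hx⟩ : ∃ x : Option (Fin L × ι) → K,
      (∀ s, x s ∈ Set.range (Nat.cast : ℕ → K)) ∧
      eval x (Φ * rename some Δ₁ * X none) ≠ 0 := by
    by_contra hcon
    push Not at hcon
    refine mul_ne_zero (mul_ne_zero hΦ0 hR0) (X_ne_zero none) (funext_set
      (fun _ => Set.range (Nat.cast : ℕ → K)) (fun _ =>
        Set.infinite_range_of_injective Nat.cast_injective) fun x hx => ?_)
    rw [hcon x (fun s => hx s (Set.mem_univ s)), map_zero]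
  choose c' hc' using hxs
  rw [map_mul, map_mul, eval_X, hΦe, eval_rename] at hx
  have hx3 : x none ≠ 0 := right_ne_zero_of_mul hx
  have hx2 := right_ne_zero_of_mul (left_ne_zero_of_mul hx)
  have hx1 := left_ne_zero_of_mul (left_ne_zero_of_mul hx)
  set c : Fin L × ι → ℕ := fun s => c' (some s) with hcdef
  have hcx : (fun p => (c p : K)) = x ∘ some := by
    funext p
    exact hc' (some p)
  have haev : ∀ (Ω : Type) [Field Ω] (σ : K →+* Ω) (ζ : Type) (x : ζ → K)
      (Δ : MvPolynomial ζ K),
      eval x Δ ≠ 0 → eval₂ σ (fun p => σ (x p)) Δ ≠ 0 := by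
    intro Ω _ σ ζ x Δ h h2
    apply h
    apply σ.injective
    rw [map_zero, ← h2]
    exact (eval₂_comp (f := σ) (g := x) Δ).trans rfl
  refine ⟨c, ?_, ?_⟩
  · intro Ω _ σ y hy
    let _ : Algebra K Ω := σ.toAlgebra
    obtain ⟨j, hj⟩ := hS1 Ω (fun s => σ (Option.elim s (x none) fun s => x none * x (some s)))
      (haev Ω σ _ _ Δ₂ hx1) y hy
    refine ⟨j, ?_⟩
    rw [uhyp_gens] at hj
    have h4 : (C (σ (Option.elim none (x none) fun s => x none * x (some s))) *
        X 0 ^ (D + e) + ∑ t : Fin L, (∑ i, C (σ (Option.elim (some (t, i)) (x none)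
          fun s => x none * x (some s))) * map (algebraMap K Ω) (q i)) * lin Ω n (t : ℕ) ^ D :
          MvPolynomial (Fin (n + 1)) Ω) =
        C (σ (x none)) * map σ (uhyp q D e fun p => (c p : K)) := by
      unfold uhyp
      rw [map_add, map_pow, map_X, map_hyp, mul_add]
      simp only [Option.elim_none, Option.elim_some]
      congr 1
      unfold hyp
      rw [Finset.mul_sum]
      refine Finset.sum_congr rfl fun t _ => ?_
      rw [← mul_assoc, Finset.mul_sum]
      congr 1
      refine Finset.sum_congr rfl fun i _ => ?_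
      rw [map_mul, C_mul, mul_assoc, ← hc' (some (t, i))]
      rfl
    rw [h4, pderiv_C_mul, map_mul, eval_C] at hj
    exact right_ne_zero_of_mul hj
  · intro σ f hf hF hnc z i
    let _ : Algebra K ℂ := σ.toAlgebra
    -- the root
    obtain ⟨h, hh⟩ : ∃ h : ℂ → ℂ, h = fun z => eval (fun j => f j z)
      (map σ (uhyp q D e fun p => (c p : K))) := ⟨_, rfl⟩
    have hhd : Differentiable ℂ h := by
      rw [hh]
      exact form_diff hf _
    obtain ⟨ρ, hρ, hρ0, hρh⟩ := entire_root h hhd (fun z => by rw [hh]; exact hF z) (D + e)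
      (by omega)
    obtain ⟨g, hg⟩ : ∃ g : Fin (n + 1) → ℂ → ℂ, g = fun j z => (ρ z)⁻¹ * f j z := ⟨_, rfl⟩
    have hgf : ∀ z, (fun j => g j z) = (ρ z)⁻¹ • fun j => f j z := by
      intro z
      rw [hg]
      rfl
    have hgd : ∀ j, Differentiable ℂ (g j) := by
      intro j
      rw [hg]
      exact (hρ.inv hρ0).mul (hf j)
    have hq' : ∀ i, (map σ (q i)).IsHomogeneous e := fun i => (hq i).map σ
    have huh : (map σ (uhyp q D e fun p => (c p : K))).IsHomogeneous (D + e) := by
      refine IsHomogeneous.map ?_ σ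
      unfold uhyp
      refine IsHomogeneous.add ?_ ?_
      · have := (isHomogeneous_X K (0 : Fin (n + 1))).pow (D + e)
        rwa [one_mul] at this
      · have := hyp_hom hq D fun p => (c p : K)
        rwa [add_comm e D] at this
    have hg1 : ∀ z, eval (fun j => g j z) (map σ (uhyp q D e fun p => (c p : K))) = 1 := by
      intro z
      rw [hgf z]
      have h5 := eval₂_scale (RingHom.id ℂ) huh (ρ z)⁻¹ (fun j => f j z)
      change eval _ _ = _ * eval _ _ at h5
      rw [h5]
      have h6 : eval (fun j => f j z) (map σ (uhyp q D e fun p => (c p : K))) = h z := by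
        rw [hh]
      rw [h6, ← hρh z, ← mul_pow, inv_mul_cancel₀ (hρ0 z), one_pow]
    have hg0 : ∀ z, ∃ j, g j z ≠ 0 := by
      intro z
      by_contra hcon
      push Not at hcon
      have h5 := hg1 z
      have h6 : (fun j => g j z) = (0 : ℂ) • fun j => g j z := by
        funext j
        rw [hcon j, Pi.smul_apply, zero_smul]
      rw [h6] at h5
      have h7 := eval₂_scale (RingHom.id ℂ) huh 0 (fun j => g j z)
      change eval _ _ = _ * eval _ _ at h7
      rw [h7, zero_pow (by omega), zero_mul] at h5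
      exact zero_ne_one h5
    -- the terms
    obtain ⟨H, hH⟩ : ∃ H : Fin L → MvPolynomial (Fin (n + 1)) ℂ,
      H = fun t : Fin L => (if (t : ℕ) = 0 then X 0 ^ e else 0) + ∑ i, C (σ (c (t, i))) * map σ (q i) :=
      ⟨_, rfl⟩
    have hHh : ∀ t, (H t).IsHomogeneous e := by
      intro t
      rw [hH]
      refine IsHomogeneous.add ?_ (fam_hom hq' _)
      split_ifs
      · have := (isHomogeneous_X ℂ (0 : Fin (n + 1))).pow e
        rwa [one_mul] at this
      · exact isHomogeneous_zero _ _ _
    have h0L : 0 < L := by omega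
    have hsum : ∀ z, ∑ t : Fin L, term g (H t) t D z = 1 := by
      intro z
      rw [← hg1 z]
      unfold uhyp
      rw [map_add, map_pow, map_X, map_hyp, map_add, hyp, map_sum]
      have h5 : ∀ t : Fin L, term g (H t) t D z =
          (if (t : ℕ) = 0 then g 0 z ^ e else 0) * eval (fun j => g j z) (lin ℂ n (t : ℕ)) ^ D +
          eval (fun j => g j z) ((∑ i, C (σ (c (t, i))) * map σ (q i)) * lin ℂ n (t : ℕ) ^ D) := by
        intro t
        unfold term
        rw [hH]
        simp only [map_add, map_mul, map_pow, add_mul]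
        congr 2
        split_ifs
        · simp
        · simp
      rw [Finset.sum_congr rfl fun t _ => h5 t, Finset.sum_add_distrib]
      congr 1
      rw [Finset.sum_eq_single (⟨0, h0L⟩ : Fin L)]
      · simp only [if_true]
        rw [lin_zero, eval_X, map_pow, eval_X, ← pow_add, add_comm e D]
      · intro t _ ht
        rw [if_neg, zero_mul]
        intro h6
        exact ht (Fin.ext h6)
      · intro h6
        exact absurd (Finset.mem_univ _) h6
    have hgnc : ∃ i j z w, g i z * g j w ≠ g j z * g i w := by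
      obtain ⟨i, j, z, w, h6⟩ := hnc
      refine ⟨i, j, z, w, fun h7 => h6 ?_⟩
      rw [hg] at h7
      simp only at h7
      have h8 : (ρ z)⁻¹ * (ρ w)⁻¹ ≠ 0 := mul_ne_zero (inv_ne_zero (hρ0 z)) (inv_ne_zero (hρ0 w))
      apply mul_left_cancel₀ h8
      linear_combination h7
    obtain ⟨𝓑, hne, hdis, hvan, hcard⟩ := hD₁ D hDD H hHh g hgd hg0 hsum hgnc
    have hcard2 : 2 * n + 3 ≤ 𝓑.card + 1 := Nat.le_of_mul_le_mul_left hcard hn
    obtain ⟨𝓒, h𝓒⟩ : ∃ 𝓒 : Finset (Finset (Fin L)), 𝓒 = 𝓑.filter fun B => (⟨0, h0L⟩ : Fin L) ∉ B :=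
      ⟨_, rfl⟩
    have h𝓒m : ∀ B, B ∈ 𝓒 ↔ B ∈ 𝓑 ∧ (⟨0, h0L⟩ : Fin L) ∉ B := by
      intro B
      rw [h𝓒, Finset.mem_filter]
    have hcC : 2 * n + 1 ≤ 𝓒.card := by
      have h5 : (𝓑.filter fun B => ¬ ((⟨0, h0L⟩ : Fin L) ∉ B)).card ≤ 1 := by
        rw [Finset.card_le_one]
        intro B hB B' hB'
        rw [Finset.mem_filter, not_not] at hB hB'
        by_contra hBB'
        exact Finset.disjoint_left.1 (hdis B hB.1 B' hB'.1 hBB') hB.2 hB'.2
      have h6 := Finset.card_filter_add_card_filter_not (s := 𝓑)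
        (fun B => (⟨0, h0L⟩ : Fin L) ∉ B)
      rw [← h𝓒] at h6
      omega
    have hgx : (fun j => g j z) ≠ (0 : Fin (n + 1) → ℂ) := by
      intro h5
      obtain ⟨j, hj⟩ := hg0 z
      exact hj (congrFun h5 j)
    have key := hB1 ℂ (fun p => σ (c p)) (by
        have h5 := haev ℂ σ _ _ Δ₁ hx2
        have h6 : (fun p => σ ((x ∘ some) p)) = fun p => σ (c p : K) := by
          rw [← hcx]
        rw [h6] at h5
        exact h5) 𝓒 (fun B hB => hne B ((h𝓒m B).1 hB).1)
      (fun B hB B' hB' => hdis B ((h𝓒m B).1 hB).1 B' ((h𝓒m B').1 hB').1) hcC (fun j => g j z)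
      hgx (by
        intro B hBB
        obtain ⟨hBB1, hBB2⟩ := (h𝓒m B).1 hBB
        rw [← hvan B hBB1 z]
        apply Finset.sum_congr rfl
        intro t ht
        have ht0 : ¬ (t : ℕ) = 0 := by
          intro h6
          apply hBB2
          have : t = ⟨0, h0L⟩ := Fin.ext h6
          rwa [← this]
        unfold term
        rw [hH]
        simp only [if_neg ht0, zero_add]
        rw [map_sum]
        congr 1
        · apply Finset.sum_congr rfl
          intro i _
          rw [map_mul, eval_C, eval_map]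
          rfl
        · rw [← map_lin σ, eval_map]
          rfl) i
    have key' : eval (fun j => g j z) (map σ (q i)) = 0 := by
      rw [eval_map]
      exact key
    rw [hgf z] at key'
    have h5 := eval₂_scale (RingHom.id ℂ) (hq' i) (ρ z)⁻¹ (fun j => f j z)
    change eval _ _ = _ * eval _ _ at h5
    rw [h5] at key'
    exact (mul_eq_zero.1 key').resolve_left (pow_ne_zero _ (inv_ne_zero (hρ0 z)))

end Pool.Agent.H4.BC
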