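import Pool.Agent.H4.BC.Defs
import Pool.Agent.H4.BC.MainG
import Pool.Graph.R_pool_sql_team_seeded_63374d34.N254.SQ.Zblv

/-!
Affine schemes as closed subschemes of complements of smooth hypersurfaces: the geometric part.
-/

set_option autoImplicit false

namespace Pool.Agent.H4.BC

open MvPolynomial NumberField
open Pool.Agent.N254.SQ

theorem rank_scale {Ω : Type} [Field Ω] {ι : Type} [Fintype ι] {n : ℕ} (c : ι → Ω)
    (hc : ∀ i, c i ≠ 0) (J J' : Matrix ι (Fin (n + 1)) Ω) (h : ∀ i j, J' i j = c i * J i j) :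
    J'.rank = J.rank := by
  classical
  have h1 : J' = Matrix.diagonal c * J := by
    ext i j
    rw [Matrix.diagonal_mul, h]
  rw [h1]
  apply Matrix.rank_mul_eq_right_of_isUnit_det
  rw [Matrix.det_diagonal, isUnit_iff_ne_zero]
  exact Finset.prod_ne_zero_iff.2 fun i _ => hc i

/-- the form with the coefficients `c`, over `K` -/
theorem map_unitForm {K : Type} [Field K] {N M : ℕ} (D : ℕ) {ι : Type} [Fintype ι]
    (q : ι → MvPolynomial (Fin (N + 1)) (𝓞 K)) (c : Fin M × ι → ℕ) :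
    map (algebraMap (𝓞 K) K) (unitForm D fun t => ∑ i, C (c (t, i) : 𝓞 K) * q i) =
      uhyp (fun i => map (algebraMap (𝓞 K) K) (q i)) D 2 fun p => (c p : K) := by
  unfold unitForm uhyp powerFormRing hyp lin
  rw [map_add, map_pow, map_X, map_sum]
  congr 1
  refine Finset.sum_congr rfl fun t _ => ?_
  rw [map_mul, map_sum, map_pow, map_sum]
  congr 1
  · refine Finset.sum_congr rfl fun i _ => ?_
    rw [map_mul, map_C, map_natCast (algebraMap (𝓞 K) K)]
  · congr 1
    refine Finset.sum_congr rfl fun j _ => ?_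
    rw [map_mul, map_C, map_X, map_pow (algebraMap (𝓞 K) K), map_natCast (algebraMap (𝓞 K) K)]

theorem smoothOver_of {K : Type} [Field K] {N : ℕ} {A : MvPolynomial (Fin (N + 1)) K}
    (h : Smooth A) : SmoothOver A := by
  intro Ω _ τ y hy
  obtain ⟨j, hj⟩ := h Ω τ y hy
  refine ⟨j, ?_⟩
  rwa [pderiv_map, eval_map] at hj

/-- the main geometric theorem -/
theorem geo_unit : ∃ D₁ : ℕ → ℕ, ∀ (n N d : ℕ) (m : Fin (N + 1) → Fin (n + 1) → ℕ), 1 ≤ n →
    3 ≤ d → Mon n N d m → m 0 0 = d → (∀ j : Fin n, m 0 j.succ = 0) → 2 * n < N →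
    ∀ D, D₁ N ≤ D → ∀ (K : Type) [Field K] [NumberField K] (ι : Type) [Finite ι]
      (F : ι → MvPolynomial (Fin n) (𝓞 K)), (∀ i, (F i).totalDegree ≤ d) →
      ∃ (κ : Type) (_ : Fintype κ) (q : κ → MvPolynomial (Fin (N + 1)) (𝓞 K))
        (c : Fin (N * (2 * N + 3)) × κ → ℕ), (∀ i, (q i).IsHomogeneous 2) ∧
        SmoothOver (map (algebraMap (𝓞 K) K)
          (unitForm D fun t => ∑ i, C (c (t, i) : 𝓞 K) * q i)) ∧
        (∀ (Ω : Type) [Field Ω] (τ : K →+* Ω) (x : Fin n → Ω),
          (∀ i, eval₂ (τ.comp (algebraMap (𝓞 K) K)) x (F i) = 0) →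
          ∀ i, eval₂ (τ.comp (algebraMap (𝓞 K) K)) (Fin.cons 1 (blva_w m x) : Fin (N + 1) → Ω)
            (q i) = 0) ∧
        (∀ (Ω : Type) [Field Ω] (τ : K →+* Ω) (y : Fin (N + 1) → Ω), y 0 ≠ 0 →
          (∀ i, eval₂ (τ.comp (algebraMap (𝓞 K) K)) y (q i) = 0) →
          ∃ x : Fin n → Ω, (∀ i, eval₂ (τ.comp (algebraMap (𝓞 K) K)) x (F i) = 0) ∧
            y = y 0 • (Fin.cons 1 (blva_w m x) : Fin (N + 1) → Ω)) ∧
        ∀ (σ : K →+* ℂ) (f : ℂ → Fin (N + 1) → ℂ), Differentiable ℂ f →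
          (∀ z, eval₂ (σ.comp (algebraMap (𝓞 K) K)) (f z)
            (unitForm D fun t => ∑ i, C (c (t, i) : 𝓞 K) * q i) ≠ 0) →
          (∃ z w, ∀ c : ℂ, f w ≠ c • f z) →
          ∀ z i, eval₂ (σ.comp (algebraMap (𝓞 K) K)) (f z) (q i) = 0 := by
  classical
  have hmain := fun (N : ℕ) (hN1 : 1 ≤ N) => main_unit t_part
    (t_size t_circ t_ledet t_wr t_form (t_logd t_form) t_top t_exp)
    (t_sizeG t_circ t_ledet t_wr t_form (t_logd t_form) t_top t_exp)
    (t_blocks t_spec t_count t_td) t_spec t_count t_td N 2 hN1 (by norm_num)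
  refine ⟨fun N => if h : 1 ≤ N then (hmain N h).choose else 0,
    fun n N d m hn hd hm hm00 hm0s hN => ?_⟩
  have hN1 : 1 ≤ N := by omega
  have hd1 : 1 ≤ d := by omega
  simp only [hN1, dif_pos]
  have hD₁ := (hmain N hN1).choose_spec
  intro D hD K _ _ ι _ F hF
  obtain ⟨κ, _, q₁, hq₁, v₁, w₁⟩ := t_ver K n N d m hm hd1 ι (fun i => blva_hom d (F i))
    (fun _ => d) (fun i => blva_hom_form (hF i)) (fun _ => le_rfl)
  choose c₁ q hc₁ hq hcq using fun i => zb_denom (q₁ i) (hq₁ i)
  have hcK : ∀ i, algebraMap (𝓞 K) K (c₁ i) ≠ 0 := by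
    intro i h0
    exact hc₁ i ((FaithfulSMul.algebraMap_injective (𝓞 K) K) (by rw [h0, map_zero]))
  -- the zeros of the forms
  have hz : ∀ (Ω : Type) [Field Ω] (τ : K →+* Ω) (y : Fin (N + 1) → Ω),
      (∀ i, eval₂ (τ.comp (algebraMap (𝓞 K) K)) y (q i) = 0) ↔ ∀ i, eval₂ τ y (q₁ i) = 0 :=
    fun Ω _ τ y => forall_congr' fun i => zb_zero τ (hc₁ i) (hcq i) y
  have hz' : ∀ (Ω : Type) [Field Ω] [Algebra K Ω] (y : Fin (N + 1) → Ω),
      (∀ i, aeval y (map (algebraMap (𝓞 K) K) (q i)) = 0) → ∀ i, aeval y (q₁ i) = 0 := by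
    intro Ω _ _ y h i
    have h1 := h i
    rw [hcq i, map_mul, aeval_C, mul_eq_zero] at h1
    exact h1.resolve_left ((map_ne_zero _).2 (hcK i))
  obtain ⟨c, hsm, hcur⟩ := hD₁ D hD K κ (fun i => map (algebraMap (𝓞 K) K) (q i))
    (fun i => (hq i).map _) n (by
    intro Ω _ _ x hx hxq
    have h1 := (w₁ Ω x hx (hz' Ω x hxq)).1
    rw [rank_scale (fun i => algebraMap K Ω (algebraMap (𝓞 K) K (c₁ i)))
      (fun i => (map_ne_zero _).2 (hcK i))
      (Matrix.of fun (i : κ) (j : Fin (N + 1)) => (aeval x (pderiv j (q₁ i)) : Ω))]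
    · omega
    · intro i j
      rw [Matrix.of_apply, Matrix.of_apply, hcq i, pderiv_C_mul, map_mul, aeval_C]) (by
    intro Ω _ _ y a hya hyq
    have hy0 : y ≠ 0 := by
      intro h
      rw [h] at hya
      exact zero_ne_one hya
    obtain ⟨-, x, a', b, hxa, hyb, hyc, -⟩ := w₁ Ω y hy0 (hz' Ω y hyq)
    refine td_scale t_td x a' hxa (ver m x) y (fun b => ?_) a (fun c => ?_)
    · refine ⟨∏ j, X j ^ m b j, ?_⟩
      rw [map_prod]
      unfold ver
      apply Finset.prod_congr rfl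
      intro j _
      rw [map_pow, aeval_X]
    · have h1 := hyc a
      rw [hya] at h1
      have h2 : ver m x a ≠ 0 := by
        intro h3
        rw [h3, mul_zero] at h1
        exact one_ne_zero h1
      rw [hyc c]
      rw [eq_div_iff h2]
      linear_combination (-ver m x c) * h1)
  refine ⟨κ, inferInstance, q, c, hq, ?_, ?_, ?_, ?_⟩
  · rw [map_unitForm]
    exact smoothOver_of hsm
  · intro Ω _ τ x hx
    rw [hz, ← blva_ver hm0s]
    let _ := τ.toAlgebra
    refine v₁ Ω _ fun i => ?_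
    have h1 := (blva_hom_zero τ (hF i) (Fin.cons 1 x : Fin (n + 1) → Ω) (by simp)).2 (by
      have h2 : (fun j : Fin n => (Fin.cons 1 x : Fin (n + 1) → Ω) j.succ /
          (Fin.cons 1 x : Fin (n + 1) → Ω) 0) = x := by
        funext j
        simp
      rw [h2]
      exact hx i)
    rw [eval_map] at h1
    exact h1
  · intro Ω _ τ y hy0 hy
    rw [hz] at hy
    let _ := τ.toAlgebra
    have hyne : y ≠ 0 := fun h => hy0 (congrFun h 0)
    obtain ⟨-, x, a, b, hxa, hyb, hyc, hx⟩ := w₁ Ω y hyne hy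
    have h0 : ver m x 0 = x 0 ^ d := by
      unfold ver
      rw [Fin.prod_univ_succ, hm00]
      simp [hm0s]
    have hx0 : x 0 ≠ 0 := by
      intro h
      apply hy0
      rw [hyc 0, h0, h, zero_pow (by omega), mul_zero]
    have h2 : x = x 0 • (Fin.cons 1 (fun j => x j.succ / x 0) : Fin (n + 1) → Ω) := by
      funext j
      refine Fin.cases ?_ (fun j => ?_) j
      · simp
      · simp only [Pi.smul_apply, Fin.cons_succ, smul_eq_mul]
        field_simp
    refine ⟨fun j => x j.succ / x 0, fun i => ?_, ?_⟩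
    · have h5 : eval x (map τ (blva_hom d (F i))) = 0 := by
        rw [eval_map]
        exact hx i
      rwa [blva_hom_zero τ (hF i) x hx0] at h5
    · have h3 : ver m x = x 0 ^ d • (Fin.cons 1 (blva_w m fun j => x j.succ / x 0) :
          Fin (N + 1) → Ω) := by
        conv_lhs => rw [h2]
        rw [ver_smul hm, blva_ver hm0s]
      have h4 : y = y b • ver m x := funext hyc
      have h5 : y 0 = y b * x 0 ^ d := by
        rw [hyc 0, h0]
      rw [h5, mul_smul, ← h3]
      exact h4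
  · intro σ f hf hP hnc z i
    have hf0 : ∀ z, f z ≠ 0 := by
      intro z h
      apply hP z
      have h1 : ∀ t, (∑ i, C (c (t, i) : 𝓞 K) * q i).IsHomogeneous 2 := by
        intro t
        refine IsHomogeneous.sum _ _ _ fun i _ => ?_
        have := (isHomogeneous_C (Fin (N + 1)) (c (t, i) : 𝓞 K)).mul (hq i)
        rwa [zero_add] at this
      rw [← eval₂_map, map_unitForm, h]
      have h2 : (uhyp (fun i => map (algebraMap (𝓞 K) K) (q i)) D 2
          fun p => (c p : K)).IsHomogeneous (D + 2) := by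
        unfold uhyp
        refine IsHomogeneous.add ?_ ?_
        · have := (isHomogeneous_X K (0 : Fin (N + 1))).pow (D + 2)
          rwa [one_mul] at this
        · have := hyp_hom (fun i => (hq i).map (algebraMap (𝓞 K) K)) D fun p => (c p : K)
          rwa [add_comm 2 D] at this
      have h3 := eval₂_scale σ h2 0 (0 : Fin (N + 1) → ℂ)
      rw [zero_smul, zero_pow (by omega), zero_mul] at h3
      exact h3
    have h1 := hcur σ (fun j z => f z j) (fun j => differentiable_pi.1 hf j) (by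
      intro z
      have h2 := hP z
      rw [← eval₂_map, map_unitForm, ← eval_map] at h2
      exact h2) (by
      obtain ⟨z, w, hzw⟩ := hnc
      by_contra hcon
      push Not at hcon
      obtain ⟨j0, hj0⟩ : ∃ j, f z j ≠ 0 := by
        by_contra h
        push Not at h
        exact hf0 z (funext h)
      apply hzw (f w j0 / f z j0)
      funext i
      have h2 := hcon i j0 z w
      rw [Pi.smul_apply, smul_eq_mul, div_mul_eq_mul_div, eq_div_iff hj0]
      linear_combination -h2) z i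
    rw [eval_map, eval₂_map] at h1
    exact h1

end Pool.Agent.H4.BC
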